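import Mathlib

set_option autoImplicit false

namespace Pool.Agent.H73.Cov

open Finset

variable {V : Type*} [DecidableEq V]

/-- A `(κ+1)`-uniform family with matching number at most `s` and covering number at least
`(κ+1) * s`. -/
def Tight (κ s : ℕ) (F : Finset (Finset V)) : Prop :=
  (∀ f ∈ F, f.card = κ + 1) ∧
  (∀ N ⊆ F, (N : Set (Finset V)).PairwiseDisjoint id → N.card ≤ s) ∧
  (∀ Y : Finset V, (∀ f ∈ F, (f ∩ Y).Nonempty) → (κ + 1) * s ≤ Y.card)

lemma pairwiseDisjoint_insert' {N : Finset (Finset V)} {f : Finset V}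
    (hN : (N : Set (Finset V)).PairwiseDisjoint id) (hf : ∀ e ∈ N, Disjoint f e) :
    ((insert f N : Finset (Finset V)) : Set (Finset V)).PairwiseDisjoint id := by
  rw [Finset.coe_insert]
  exact hN.insert (fun e he _ => hf e he)

lemma exists_matching_of_cover {G : Finset (Finset V)} {k c : ℕ} (hk0 : 0 < k)
    (hk : ∀ f ∈ G, f.card = k)
    (hτ : ∀ Y : Finset V, (∀ f ∈ G, (f ∩ Y).Nonempty) → c ≤ Y.card) :
    ∃ N ⊆ G, (N : Set (Finset V)).PairwiseDisjoint id ∧ c ≤ k * N.card := by
  classical
  set S : Finset (Finset (Finset V)) := G.powerset.filter (fun N => (N : Set (Finset V)).PairwiseDisjoint id) with hSdef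
  have hS : S.Nonempty := ⟨∅, by simp [S]⟩
  obtain ⟨N, hN, hmax⟩ := Finset.exists_max_image S (fun N => N.card) hS
  rw [hSdef, mem_filter, mem_powerset] at hN
  refine ⟨N, hN.1, hN.2, ?_⟩
  have hcov : ∀ f ∈ G, (f ∩ N.biUnion id).Nonempty := by
    intro f hf
    by_contra hne
    rw [Finset.not_nonempty_iff_eq_empty, ← Finset.disjoint_iff_inter_eq_empty] at hne
    have hdis : ∀ e ∈ N, Disjoint f e := by
      intro e he
      exact hne.mono_right (Finset.subset_biUnion_of_mem id he)
    have hfN : f ∉ N := by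
      intro hfN
      have h1 := hdis f hfN
      rw [disjoint_self] at h1
      have h2 := hk f hf
      simp [h1] at h2
      omega
    have hmem : insert f N ∈ S := by
      rw [hSdef, mem_filter, mem_powerset]
      exact ⟨Finset.insert_subset hf hN.1, pairwiseDisjoint_insert' hN.2 hdis⟩
    have h3 := hmax _ hmem
    rw [Finset.card_insert_of_notMem hfN] at h3
    omega
  calc c ≤ (N.biUnion id).card := hτ _ hcov
    _ ≤ ∑ e ∈ N, (id e).card := Finset.card_biUnion_le
    _ = ∑ e ∈ N, k := Finset.sum_congr rfl (fun e he => hk e (hN.1 he))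
    _ = k * N.card := by simp [mul_comm]

lemma Tight.exists_avoiding {κ j : ℕ} {G : Finset (Finset V)} (h : Tight κ j G)
    (T : Finset V) (hT : T.card ≤ κ) :
    ∃ N ⊆ G, (N : Set (Finset V)).PairwiseDisjoint id ∧ N.card = j ∧ ∀ e ∈ N, Disjoint e T := by
  classical
  obtain ⟨h1, h2, h3⟩ := h
  obtain ⟨N, hNG, hNd, hNc⟩ := exists_matching_of_cover (G := G.filter (fun e => Disjoint e T))
    (k := κ + 1) (c := (κ + 1) * j - κ) (Nat.succ_pos κ)
    (fun f hf => h1 f (Finset.mem_filter.1 hf).1)
    (by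
      intro Y hY
      have h4 := h3 (Y ∪ T) (by
        intro f hf
        by_cases hd : Disjoint f T
        · obtain ⟨x, hx⟩ := hY f (Finset.mem_filter.2 ⟨hf, hd⟩)
          rw [Finset.mem_inter] at hx
          exact ⟨x, Finset.mem_inter.2 ⟨hx.1, Finset.mem_union_left _ hx.2⟩⟩
        · rw [Finset.not_disjoint_iff] at hd
          obtain ⟨x, hx, hx'⟩ := hd
          exact ⟨x, Finset.mem_inter.2 ⟨hx, Finset.mem_union_right _ hx'⟩⟩)
      have h5 := Finset.card_union_le Y T
      omega)
  have hj : j ≤ N.card := by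
    rcases Nat.eq_zero_or_pos j with rfl | hj
    · exact Nat.zero_le _
    · by_contra hlt
      push Not at hlt
      have : (κ + 1) * N.card ≤ (κ + 1) * (j - 1) := Nat.mul_le_mul_left _ (by omega)
      have h6 : (κ + 1) * (j - 1) + (κ + 1) = (κ + 1) * j := by
        rw [← Nat.mul_succ]
        congr 1
        omega
      omega
  obtain ⟨N', hN'N, hN'c⟩ := Finset.exists_subset_card_eq hj
  refine ⟨N', fun e he => (Finset.mem_filter.1 (hNG (hN'N he))).1, ?_, hN'c, ?_⟩
  · exact hNd.subset (by exact_mod_cast hN'N)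
  · intro e he
    exact (Finset.mem_filter.1 (hNG (hN'N he))).2

/-- Every edge disjoint from `V(N)` for a matching `N` of size `j` yields a contradiction. -/
lemma Tight.inter_nonempty {κ j : ℕ} {G : Finset (Finset V)} (h : Tight κ j G)
    {N : Finset (Finset V)} (hN : N ⊆ G) (hNd : (N : Set (Finset V)).PairwiseDisjoint id)
    (hNc : N.card = j) {f : Finset V} (hf : f ∈ G) : (f ∩ N.biUnion id).Nonempty := by
  classical
  by_contra hne
  rw [Finset.not_nonempty_iff_eq_empty, ← Finset.disjoint_iff_inter_eq_empty] at hne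
  have hdis : ∀ e ∈ N, Disjoint f e := by
    intro e he
    exact hne.mono_right (Finset.subset_biUnion_of_mem id he)
  have hfN : f ∉ N := by
    intro hfN
    have h1 := hdis f hfN
    rw [disjoint_self] at h1
    have h2 := h.1 f hf
    simp [h1] at h2
  have := h.2.1 (insert f N) (Finset.insert_subset hf hN) (pairwiseDisjoint_insert' hNd hdis)
  rw [Finset.card_insert_of_notMem hfN] at this
  omega

lemma Tight.card_biUnion_le {κ j : ℕ} {G : Finset (Finset V)} (h : Tight κ j G)
    {N : Finset (Finset V)} (hN : N ⊆ G) (hNc : N.card = j) :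
    (N.biUnion id).card ≤ (κ + 1) * j := by
  calc (N.biUnion id).card ≤ ∑ e ∈ N, (id e).card := Finset.card_biUnion_le
    _ = ∑ e ∈ N, (κ + 1) := Finset.sum_congr rfl (fun e he => h.1 e (hN he))
    _ = (κ + 1) * j := by simp [hNc, mul_comm]

lemma Tight.lovasz_aux {κ j : ℕ} {G : Finset (Finset V)} (h : Tight κ j G) :
    ∀ d : ℕ, ∀ T : Finset V, T.card + d = κ + 1 →
      (G.filter (fun f => T ⊆ f)).card ≤ ((κ + 1) * j) ^ d := by
  classical
  intro d
  induction d with
  | zero =>
    intro T hT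
    rw [pow_zero, Finset.card_le_one]
    intro a ha b hb
    rw [Finset.mem_filter] at ha hb
    have h1 := h.1 a ha.1
    have h2 := h.1 b hb.1
    rw [← Finset.eq_of_subset_of_card_le ha.2 (by omega),
      ← Finset.eq_of_subset_of_card_le hb.2 (by omega)]
  | succ d ih =>
    intro T hT
    obtain ⟨N, hNG, hNd, hNc, hNT⟩ := h.exists_avoiding T (by omega)
    have hsub : G.filter (fun f => T ⊆ f) ⊆
        (N.biUnion id).biUnion (fun x => (G.filter (fun f => T ⊆ f)).filter (fun f => x ∈ f)) := by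
      intro f hf
      obtain ⟨x, hx⟩ := h.inter_nonempty hNG hNd hNc (Finset.mem_filter.1 hf).1
      rw [Finset.mem_inter] at hx
      exact Finset.mem_biUnion.2 ⟨x, hx.2, Finset.mem_filter.2 ⟨hf, hx.1⟩⟩
    have hx : ∀ x ∈ N.biUnion id,
        ((G.filter (fun f => T ⊆ f)).filter (fun f => x ∈ f)).card ≤ ((κ + 1) * j) ^ d := by
      intro x hx
      have hxT : x ∉ T := by
        rw [Finset.mem_biUnion] at hx
        obtain ⟨e, he, hxe⟩ := hx
        exact Finset.disjoint_left.1 (hNT e he) hxe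
      have := ih (insert x T) (by rw [Finset.card_insert_of_notMem hxT]; omega)
      refine le_trans (Finset.card_le_card ?_) this
      intro f hf
      rw [Finset.mem_filter, Finset.mem_filter] at hf
      rw [Finset.mem_filter]
      exact ⟨hf.1.1, Finset.insert_subset hf.2 hf.1.2⟩
    calc (G.filter (fun f => T ⊆ f)).card
        ≤ _ := Finset.card_le_card hsub
      _ ≤ ∑ x ∈ N.biUnion id, ((G.filter (fun f => T ⊆ f)).filter (fun f => x ∈ f)).card :=
          Finset.card_biUnion_le
      _ ≤ ∑ x ∈ N.biUnion id, ((κ + 1) * j) ^ d := Finset.sum_le_sum hx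
      _ = (N.biUnion id).card * ((κ + 1) * j) ^ d := by simp
      _ ≤ ((κ + 1) * j) * ((κ + 1) * j) ^ d :=
          Nat.mul_le_mul_right _ (h.card_biUnion_le hNG hNc)
      _ = ((κ + 1) * j) ^ (d + 1) := by rw [pow_succ, mul_comm]

lemma Tight.lovasz {κ j : ℕ} {G : Finset (Finset V)} (h : Tight κ j G) :
    G.card ≤ ((κ + 1) * j) ^ (κ + 1) := by
  have := h.lovasz_aux (κ + 1) ∅ (by simp)
  simpa using this

/-! ### Indexed matchings -/

/-- A parametrised matching: `s` disjoint edges of `F`, the `i`-th being `{v (i, a) : a}`. -/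
structure IMatch (κ s : ℕ) (F : Finset (Finset V)) where
  v : Fin s × Fin (κ + 1) → V
  inj : Function.Injective v
  mem : ∀ i, (univ.image (fun a => v (i, a))) ∈ F

lemma Tight.exists_imatch {κ s : ℕ} {F : Finset (Finset V)} (h : Tight κ s F) :
    Nonempty (IMatch κ s F) := by
  classical
  obtain ⟨N, hNF, hNd, hNc, -⟩ := h.exists_avoiding ∅ (by simp)
  let e1 : N ≃ Fin s := Finset.equivFinOfCardEq hNc
  have hcard : ∀ f : N, (f : Finset V).card = κ + 1 := fun f => h.1 f (hNF f.2)
  let e2 : ∀ f : N, (f : Finset V) ≃ Fin (κ + 1) := fun f => Finset.equivFinOfCardEq (hcard f)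
  refine ⟨⟨fun p => ((e2 (e1.symm p.1)).symm p.2 : V), ?_, ?_⟩⟩
  · rintro ⟨i, a⟩ ⟨i', a'⟩ hh
    have hii : i = i' := by
      by_contra hne
      have h1 : (e1.symm i) ≠ (e1.symm i') := fun hc => hne (e1.symm.injective hc)
      have h2 : ((e1.symm i : N) : Finset V) ≠ (e1.symm i' : N) := fun hc => h1 (Subtype.ext hc)
      have h3 := hNd (e1.symm i).2 (e1.symm i').2 h2
      have h4 := ((e2 (e1.symm i)).symm a).2
      have h5 := ((e2 (e1.symm i')).symm a').2
      simp only at hh
      rw [← hh] at h5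
      exact Finset.disjoint_left.1 h3 h4 h5
    subst hii
    have : a = a' := by
      apply (e2 (e1.symm i)).symm.injective
      exact Subtype.ext hh
    rw [this]
  · intro i
    have : univ.image (fun a => ((e2 (e1.symm i)).symm a : V)) = ((e1.symm i : N) : Finset V) := by
      ext x
      simp only [Finset.mem_image, Finset.mem_univ, true_and]
      constructor
      · rintro ⟨a, rfl⟩
        exact ((e2 (e1.symm i)).symm a).2
      · intro hx
        exact ⟨e2 (e1.symm i) ⟨x, hx⟩, by simp⟩
    rw [this]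
    exact hNF (e1.symm i).2

namespace IMatch

variable {κ s : ℕ} {F : Finset (Finset V)} (M : IMatch κ s F)

/-- the `i`-th edge -/
def edge (i : Fin s) : Finset V := univ.image (fun a => M.v (i, a))

/-- all covered vertices -/
def U : Finset V := univ.image M.v

/-- the edges of `F` only meeting matching edges with index in `J` -/
def res (J : Finset (Fin s)) : Finset (Finset V) := F.filter (fun f => ∀ i, i ∉ J → Disjoint f (M.edge i))

/-- indices of matching edges met by `f` -/
def supp (f : Finset V) : Finset (Fin s) := univ.filter (fun i => ¬ Disjoint f (M.edge i))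

lemma mem_edge {i : Fin s} {x : V} : x ∈ M.edge i ↔ ∃ a, M.v (i, a) = x := by
  simp [edge]

lemma v_mem_edge {i j : Fin s} {a : Fin (κ + 1)} : M.v (i, a) ∈ M.edge j ↔ i = j := by
  rw [mem_edge]
  constructor
  · rintro ⟨b, hb⟩
    have := M.inj hb
    simp at this
    exact this.1.symm
  · rintro rfl
    exact ⟨a, rfl⟩

lemma mem_U {x : V} : x ∈ M.U ↔ ∃ p, M.v p = x := by
  simp [U]

lemma edge_card (i : Fin s) : (M.edge i).card = κ + 1 := by
  rw [edge, Finset.card_image_of_injective _ (fun a b hab => by simpa using M.inj hab)]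
  simp

lemma edge_disjoint {i j : Fin s} (h : i ≠ j) : Disjoint (M.edge i) (M.edge j) := by
  rw [Finset.disjoint_left]
  intro x hx hx'
  obtain ⟨a, rfl⟩ := M.mem_edge.1 hx
  exact h (M.v_mem_edge.1 hx')

lemma edge_subset_U (i : Fin s) : M.edge i ⊆ M.U := by
  intro x hx
  obtain ⟨a, rfl⟩ := M.mem_edge.1 hx
  exact M.mem_U.2 ⟨_, rfl⟩

lemma U_card : M.U.card = s * (κ + 1) := by
  rw [U, Finset.card_image_of_injective _ M.inj]
  simp

lemma edge_injective : Function.Injective M.edge := by
  intro i j hij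
  by_contra hne
  have := M.edge_disjoint hne
  rw [hij, disjoint_self] at this
  have h2 := M.edge_card j
  rw [this] at h2
  simp at h2

lemma mem_res {J : Finset (Fin s)} {f : Finset V} :
    f ∈ M.res J ↔ f ∈ F ∧ ∀ i, i ∉ J → Disjoint f (M.edge i) := by
  simp [res]

lemma tight_res (h : Tight κ s F) (J : Finset (Fin s)) : Tight κ J.card (M.res J) := by
  classical
  refine ⟨fun f hf => h.1 f (M.mem_res.1 hf).1, ?_, ?_⟩
  · intro N hN hNd
    have hdisj : Disjoint N (Jᶜ.image M.edge) := by
      rw [Finset.disjoint_left]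
      intro f hf hf'
      rw [Finset.mem_image] at hf'
      obtain ⟨i, hi, rfl⟩ := hf'
      have h1 := (M.mem_res.1 (hN hf)).2 i (Finset.mem_compl.1 hi)
      rw [disjoint_self] at h1
      have h2 := M.edge_card i
      rw [h1] at h2
      simp at h2
    have hsub : N ∪ Jᶜ.image M.edge ⊆ F := by
      apply Finset.union_subset
      · intro f hf
        exact (M.mem_res.1 (hN hf)).1
      · intro f hf
        rw [Finset.mem_image] at hf
        obtain ⟨i, -, rfl⟩ := hf
        exact M.mem i
    have hpd : ((N ∪ Jᶜ.image M.edge : Finset (Finset V)) : Set (Finset V)).PairwiseDisjoint id := by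
      intro f hf g hg hfg
      simp only [Finset.coe_union, Finset.coe_image, Set.mem_union, Set.mem_image,
        Finset.mem_coe] at hf hg
      rcases hf with hf | ⟨i, hi, rfl⟩
      · rcases hg with hg | ⟨j, hj, rfl⟩
        · exact hNd hf hg hfg
        · exact (M.mem_res.1 (hN hf)).2 j (Finset.mem_compl.1 hj)
      · rcases hg with hg | ⟨j, hj, rfl⟩
        · exact ((M.mem_res.1 (hN hg)).2 i (Finset.mem_compl.1 hi)).symm
        · exact M.edge_disjoint (fun hc => hfg (by rw [hc]))
    have := h.2.1 _ hsub hpd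
    rw [Finset.card_union_of_disjoint hdisj, Finset.card_image_of_injective _ M.edge_injective,
      Finset.card_compl, Fintype.card_fin] at this
    have hJ : J.card ≤ s := by simpa using Finset.card_le_univ J
    omega
  · intro Y hY
    have := h.2.2 (Y ∪ Jᶜ.biUnion M.edge) (by
      intro f hf
      by_cases hfJ : ∀ i, i ∉ J → Disjoint f (M.edge i)
      · obtain ⟨x, hx⟩ := hY f (M.mem_res.2 ⟨hf, hfJ⟩)
        rw [Finset.mem_inter] at hx
        exact ⟨x, Finset.mem_inter.2 ⟨hx.1, Finset.mem_union_left _ hx.2⟩⟩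
      · push Not at hfJ
        obtain ⟨i, hi, hd⟩ := hfJ
        rw [Finset.not_disjoint_iff] at hd
        obtain ⟨x, hx, hx'⟩ := hd
        exact ⟨x, Finset.mem_inter.2 ⟨hx, Finset.mem_union_right _
          (Finset.mem_biUnion.2 ⟨i, Finset.mem_compl.2 hi, hx'⟩)⟩⟩)
    have h1 := Finset.card_union_le Y (Jᶜ.biUnion M.edge)
    have h2 : (Jᶜ.biUnion M.edge).card ≤ (κ + 1) * (s - J.card) := by
      calc (Jᶜ.biUnion M.edge).card ≤ ∑ i ∈ Jᶜ, (M.edge i).card := Finset.card_biUnion_le
        _ = ∑ i ∈ Jᶜ, (κ + 1) := Finset.sum_congr rfl (fun i _ => M.edge_card i)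
        _ = (κ + 1) * (s - J.card) := by
          simp [Finset.card_compl, mul_comm]
    have hJ : J.card ≤ s := by simpa using Finset.card_le_univ J
    have h3 : (κ + 1) * s = (κ + 1) * (s - J.card) + (κ + 1) * J.card := by
      rw [← Nat.mul_add, Nat.sub_add_cancel hJ]
    omega

/-- Indexed form of the matching bound inside `res J`. -/
lemma card_le_of_family (h : Tight κ s F) (J : Finset (Fin s)) {ι : Type*} [Fintype ι]
    (g : ι → Finset V) (hg : ∀ i, g i ∈ M.res J) (hd : ∀ i j, i ≠ j → Disjoint (g i) (g j)) :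
    Fintype.card ι ≤ J.card := by
  classical
  have hinj : Function.Injective g := by
    intro i j hij
    by_contra hne
    have h1 := hd i j hne
    rw [hij, disjoint_self] at h1
    have h2 := h.1 (g j) (M.mem_res.1 (hg j)).1
    rw [h1] at h2
    simp at h2
  have := (M.tight_res h J).2.1 (univ.image g) (by
    intro f hf
    rw [Finset.mem_image] at hf
    obtain ⟨i, -, rfl⟩ := hf
    exact hg i) (by
    intro f hf f' hf' hne
    simp only [Finset.coe_image, Finset.coe_univ, Set.image_univ, Set.mem_range] at hf hf'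
    obtain ⟨i, rfl⟩ := hf
    obtain ⟨j, rfl⟩ := hf'
    exact hd i j (fun hc => hne (by rw [hc])))
  rwa [Finset.card_image_of_injective _ hinj, Finset.card_univ] at this

/-- vertex set of a tuple -/
def B {n : ℕ} (b : Fin n → Fin s × Fin (κ + 1)) : Finset V := univ.image (fun p => M.v (b p))

lemma mem_B {n : ℕ} {b : Fin n → Fin s × Fin (κ + 1)} {x : V} :
    x ∈ M.B b ↔ ∃ p, M.v (b p) = x := by simp [B]

lemma B_card_le {n : ℕ} (b : Fin n → Fin s × Fin (κ + 1)) : (M.B b).card ≤ n := by
  refine le_trans Finset.card_image_le ?_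
  simp

lemma B_subset_U {n : ℕ} (b : Fin n → Fin s × Fin (κ + 1)) : M.B b ⊆ M.U := by
  intro x hx
  obtain ⟨p, rfl⟩ := M.mem_B.1 hx
  exact M.mem_U.2 ⟨_, rfl⟩

variable [Fintype V]

/-- outside neighbours of a `κ`-tuple -/
def Nb (b : Fin κ → Fin s × Fin (κ + 1)) : Finset V :=
  univ.filter (fun z => z ∉ M.U ∧ insert z (M.B b) ∈ F)

lemma mem_Nb {b : Fin κ → Fin s × Fin (κ + 1)} {z : V} :
    z ∈ M.Nb b ↔ z ∉ M.U ∧ insert z (M.B b) ∈ F := by simp [Nb]

lemma insert_mem_res {J : Finset (Fin s)} {b : Fin κ → Fin s × Fin (κ + 1)}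
    (hJ : ∀ p, (b p).1 ∈ J) {z : V} (hz : z ∉ M.U) (hF : insert z (M.B b) ∈ F) :
    insert z (M.B b) ∈ M.res J := by
  refine M.mem_res.2 ⟨hF, ?_⟩
  intro i hi
  rw [Finset.disjoint_left]
  intro x hx hx'
  rw [Finset.mem_insert] at hx
  rcases hx with rfl | hx
  · exact hz (M.edge_subset_U i hx')
  · obtain ⟨p, rfl⟩ := M.mem_B.1 hx
    have := M.v_mem_edge.1 hx'
    exact hi (this ▸ hJ p)

lemma Nb_card_le (h : Tight κ s F) (b : Fin κ → Fin s × Fin (κ + 1)) :
    (M.Nb b).card ≤ (κ + 1) * κ := by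
  classical
  set J : Finset (Fin s) := univ.image (fun p => (b p).1) with hJ
  have hJc : J.card ≤ κ := by
    refine le_trans Finset.card_image_le ?_
    simp
  have ht := M.tight_res h J
  obtain ⟨N, hNG, hNd, hNc, hNT⟩ := ht.exists_avoiding (M.B b) (M.B_card_le b)
  have hsub : M.Nb b ⊆ N.biUnion id := by
    intro z hz
    rw [mem_Nb] at hz
    have hf : insert z (M.B b) ∈ M.res J :=
      M.insert_mem_res (fun p => by rw [hJ]; exact Finset.mem_image_of_mem _ (Finset.mem_univ p))
        hz.1 hz.2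
    obtain ⟨x, hx⟩ := ht.inter_nonempty hNG hNd hNc hf
    rw [Finset.mem_inter, Finset.mem_insert] at hx
    rcases hx.1 with rfl | hxB
    · exact hx.2
    · exfalso
      obtain ⟨e, he, hxe⟩ := Finset.mem_biUnion.1 hx.2
      exact Finset.disjoint_left.1 (hNT e he) hxe hxB
  calc (M.Nb b).card ≤ (N.biUnion id).card := Finset.card_le_card hsub
    _ ≤ (κ + 1) * J.card := ht.card_biUnion_le hNG hNc
    _ ≤ (κ + 1) * κ := Nat.mul_le_mul_left _ hJc

end IMatch

end Pool.Agent.H73.Cov
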