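import Mathlib
import Pool.Agent.H73.CovA

set_option autoImplicit false

namespace Pool.Agent.H73.Cov

open Finset

/-! ### Counting functions -/

section Count

variable {α β X : Type*} [Fintype α] [Fintype β] [Fintype X] [DecidableEq α] [DecidableEq β]
  [DecidableEq X]

lemma card_fiber_comp (ι : α → β) (hι : Function.Injective ι) (x : α → X) :
    (univ.filter (fun h : β → X => h ∘ ι = x)).card
      = Fintype.card X ^ (Fintype.card β - Fintype.card α) := by
  classical
  rw [← Fintype.card_subtype]
  let x₀ : {b // b ∈ Set.range ι} → X := fun b => x ((Equiv.ofInjective ι hι).symm b)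
  have key : ∀ h : β → X, h ∘ ι = x ↔ h ∘ (Subtype.val : {b // b ∈ Set.range ι} → β) = x₀ := by
    intro h
    constructor
    · intro hh
      funext b
      obtain ⟨b, a, rfl⟩ := b
      have : (Equiv.ofInjective ι hι).symm ⟨ι a, ⟨a, rfl⟩⟩ = a := by
        rw [Equiv.symm_apply_eq]
        rfl
      simp only [x₀, this]
      rw [← hh]
      rfl
    · intro hh
      funext a
      have h1 := congrFun hh ⟨ι a, ⟨a, rfl⟩⟩
      have : (Equiv.ofInjective ι hι).symm ⟨ι a, ⟨a, rfl⟩⟩ = a := by
        rw [Equiv.symm_apply_eq]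
        rfl
      simp only [x₀, this] at h1
      exact h1
  rw [Fintype.card_congr (Equiv.subtypeEquivRight key),
    Fintype.card_congr (Equiv.subtypePreimage (fun b => b ∈ Set.range ι) x₀),
    Fintype.card_fun, Fintype.card_subtype_compl]
  congr 2
  exact Set.card_range_of_injective hι

lemma sum_comp_injective (ι : α → β) (hι : Function.Injective ι) (φ : (α → X) → ℕ) :
    ∑ h : β → X, φ (h ∘ ι)
      = Fintype.card X ^ (Fintype.card β - Fintype.card α) * ∑ x : α → X, φ x := by
  classical
  rw [← Finset.sum_fiberwise (s := (univ : Finset (β → X))) (g := fun h : β → X => h ∘ ι),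
    Finset.mul_sum]
  refine Finset.sum_congr rfl (fun x _ => ?_)
  rw [Finset.sum_congr rfl (g := fun _ => φ x)
    (fun h hh => by rw [Finset.mem_filter] at hh; rw [hh.2]), Finset.sum_const,
    card_fiber_comp ι hι x, smul_eq_mul]

lemma card_filter_comp (ι : α → β) (hι : Function.Injective ι) (P : (α → X) → Prop)
    [DecidablePred P] :
    (univ.filter (fun h : β → X => P (h ∘ ι))).card
      = Fintype.card X ^ (Fintype.card β - Fintype.card α) * (univ.filter P).card := by
  rw [Finset.card_filter, Finset.card_filter]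
  exact sum_comp_injective ι hι (fun x => if P x then 1 else 0)

end Count

lemma card_image_eq {X : Type*} [Fintype X] [DecidableEq X] {n : ℕ} (A : Finset X)
    (hA : A.card = n) :
    (univ.filter (fun w : Fin n → X => univ.image w = A)).card = n.factorial := by
  classical
  rw [← Fintype.card_subtype]
  have e : {w : Fin n → X // univ.image w = A} ≃ (Fin n ↪ A) :=
    { toFun := fun w => ⟨fun i => ⟨w.1 i, (Finset.ext_iff.1 w.2 (w.1 i)).1 (Finset.mem_image_of_mem _ (mem_univ i))⟩,
        by
          have hinj : Function.Injective w.1 := by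
            have h1 : (univ.image w.1).card = (univ : Finset (Fin n)).card := by
              rw [w.2, hA]; simp
            rw [Finset.card_image_iff] at h1
            intro i j hij
            exact h1 (by simp) (by simp) hij
          intro i j hij
          exact hinj (by simpa using hij)⟩
      invFun := fun e => ⟨fun i => (e i : X), by
        apply Finset.eq_of_subset_of_card_le
        · intro x hx
          rw [Finset.mem_image] at hx
          obtain ⟨i, -, rfl⟩ := hx
          exact (e i).2
        · rw [Finset.card_image_of_injective _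
            (fun i j hij => e.injective (Subtype.ext hij))]
          simp [hA]⟩
      left_inv := fun w => by
        apply Subtype.ext
        rfl
      right_inv := fun e => by
        ext i
        rfl }
  rw [Fintype.card_congr e, Fintype.card_embedding_eq]
  simp [hA, Nat.descFactorial_self]

lemma card_fst_comp {s k n : ℕ} (P : (Fin n → Fin s) → Prop) [DecidablePred P] :
    (univ.filter (fun x : Fin n → Fin s × Fin k => P (fun l => (x l).1))).card
      = (univ.filter P).card * k ^ n := by
  classical
  have h1 : (univ.filter (fun x : Fin n → Fin s × Fin k => P (fun l => (x l).1))).card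
      = ((univ.filter P) ×ˢ (univ : Finset (Fin n → Fin k))).card := by
    refine Finset.card_bij (fun x _ => (fun l => (x l).1, fun l => (x l).2)) ?_ ?_ ?_
    · intro x hx
      rw [Finset.mem_filter] at hx
      rw [Finset.mem_product]
      exact ⟨Finset.mem_filter.2 ⟨mem_univ _, hx.2⟩, mem_univ _⟩
    · intro x _ y _ hxy
      rw [Prod.mk.injEq] at hxy
      funext l
      exact Prod.ext (congrFun hxy.1 l) (congrFun hxy.2 l)
    · rintro ⟨j, a⟩ hja
      rw [Finset.mem_product] at hja
      exact ⟨fun l => (j l, a l), Finset.mem_filter.2 ⟨mem_univ _, (Finset.mem_filter.1 hja.1).2⟩,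
        rfl⟩
  rw [h1, Finset.card_product]
  simp

namespace IMatch

variable {V : Type*} [DecidableEq V] {κ s : ℕ} {F : Finset (Finset V)} (M : IMatch κ s F)

/-- index tuples supporting a missing transversal -/
noncomputable def Bad : Finset (Fin (κ + 1) → Fin s) := by
  classical
  exact univ.filter (fun j => Function.Injective j ∧
    ∃ a : Fin (κ + 1) → Fin (κ + 1), univ.image (fun l => M.v (j l, a l)) ∉ F)

lemma mem_Bad {j : Fin (κ + 1) → Fin s} : j ∈ M.Bad ↔ Function.Injective j ∧
    ∃ a : Fin (κ + 1) → Fin (κ + 1), univ.image (fun l => M.v (j l, a l)) ∉ F := by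
  classical
  simp [Bad]

/-- the missing `(κ+1)`-subsets of `U` -/
def miss : Finset (Finset V) := (powersetCard (κ + 1) M.U) \ F

lemma card_F0_add_miss (hF : ∀ f ∈ F, f.card = κ + 1) :
    (F.filter (fun f => f ⊆ M.U)).card + M.miss.card = (s * (κ + 1)).choose (κ + 1) := by
  classical
  have h1 : F.filter (fun f => f ⊆ M.U) = (powersetCard (κ + 1) M.U) ∩ F := by
    ext f
    rw [Finset.mem_filter, Finset.mem_inter, Finset.mem_powersetCard]
    constructor
    · rintro ⟨h1, h2⟩
      exact ⟨⟨h2, hF f h1⟩, h1⟩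
    · rintro ⟨⟨h1, h2⟩, h3⟩
      exact ⟨h3, h1⟩
  rw [h1, miss, Finset.card_inter_add_card_sdiff, Finset.card_powersetCard, M.U_card]

lemma card_Bad_le [Fintype V] : M.Bad.card ≤ (κ + 1).factorial * M.miss.card := by
  classical
  have hex : ∀ j : Fin (κ + 1) → Fin s, ∃ a : Fin (κ + 1) → Fin (κ + 1),
      j ∈ M.Bad → univ.image (fun l => M.v (j l, a l)) ∉ F := by
    intro j
    by_cases hj : j ∈ M.Bad
    · obtain ⟨a, ha⟩ := (M.mem_Bad.1 hj).2
      exact ⟨a, fun _ => ha⟩
    · exact ⟨fun _ => 0, fun h => absurd h hj⟩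
  choose a ha using hex
  have hw : ∀ j ∈ M.Bad, (univ.image (fun l => M.v (j l, a j l))).card = κ + 1 := by
    intro j hj
    rw [Finset.card_image_of_injective]
    · simp
    · intro l l' hl
      have := M.inj hl
      rw [Prod.mk.injEq] at this
      exact (M.mem_Bad.1 hj).1 this.1
  refine Finset.card_le_mul_card_image_of_maps_to
    (f := fun j => univ.image (fun l => M.v (j l, a j l))) ?_ _ ?_
  · intro j hj
    rw [miss, Finset.mem_sdiff, Finset.mem_powersetCard]
    refine ⟨⟨?_, hw j hj⟩, ha j hj⟩
    intro x hx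
    rw [Finset.mem_image] at hx
    obtain ⟨l, -, rfl⟩ := hx
    exact M.mem_U.2 ⟨_, rfl⟩
  · intro g hg
    rw [miss, Finset.mem_sdiff, Finset.mem_powersetCard] at hg
    rw [← card_image_eq g hg.1.2]
    refine Finset.card_le_card_of_injOn (fun j => fun l => M.v (j l, a j l)) ?_ ?_
    · intro j hj
      rw [Finset.mem_coe, Finset.mem_filter] at hj
      rw [Finset.mem_coe, Finset.mem_filter]
      exact ⟨mem_univ _, hj.2⟩
    · intro j _ j' _ hjj
      funext l
      have := M.inj (congrFun hjj l)
      rw [Prod.mk.injEq] at this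
      exact this.1

lemma inter_U_card (f : Finset V) :
    (f ∩ M.U).card = (univ.filter (fun p => M.v p ∈ f)).card := by
  classical
  rw [← Finset.card_image_of_injective (univ.filter (fun p => M.v p ∈ f)) M.inj]
  congr 1
  ext x
  rw [Finset.mem_inter, Finset.mem_image, mem_U]
  constructor
  · rintro ⟨h1, p, rfl⟩
    exact ⟨p, Finset.mem_filter.2 ⟨mem_univ _, h1⟩, rfl⟩
  · rintro ⟨p, hp, rfl⟩
    exact ⟨(Finset.mem_filter.1 hp).2, p, rfl⟩

lemma card_F1_le [Fintype V] (hF : ∀ f ∈ F, f.card = κ + 1) :
    κ.factorial * (F.filter (fun f => (f \ M.U).card = 1)).card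
      ≤ ∑ b : Fin κ → Fin s × Fin (κ + 1), (M.Nb b).card := by
  classical
  rw [← Finset.card_sigma]
  set P := (univ : Finset (Fin κ → Fin s × Fin (κ + 1))).sigma (fun b => M.Nb b) with hP
  set F1 := F.filter (fun f => (f \ M.U).card = 1) with hF1
  set g : (Σ _ : Fin κ → Fin s × Fin (κ + 1), V) → Finset V := fun p => insert p.2 (M.B p.1) with hg
  refine le_trans (Finset.mul_card_image_le_card_of_maps_to (s := P.filter (fun p => g p ∈ F1))
    (f := g) (t := F1) (fun p hp => (Finset.mem_filter.1 hp).2) _ ?_)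
    (Finset.card_le_card (Finset.filter_subset _ _))
  intro f hf
  have hf' := hf
  rw [hF1, Finset.mem_filter] at hf
  obtain ⟨hfF, hf1⟩ := hf
  obtain ⟨z, hz⟩ := Finset.card_eq_one.1 hf1
  have hzm : z ∈ f \ M.U := by rw [hz]; exact Finset.mem_singleton_self z
  rw [Finset.mem_sdiff] at hzm
  have hAc : (univ.filter (fun p => M.v p ∈ f)).card = κ := by
    rw [← M.inter_U_card f]
    have h1 := Finset.card_inter_add_card_sdiff f M.U
    have h2 := hF f hfF
    omega
  rw [← card_image_eq _ hAc]
  refine Finset.card_le_card_of_injOn (fun b => ⟨b, z⟩) ?_ ?_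
  · intro b hb
    rw [Finset.mem_coe, Finset.mem_filter] at hb
    have hgb : g ⟨b, z⟩ = f := by
      simp only [hg]
      ext x
      rw [Finset.mem_insert, mem_B]
      constructor
      · rintro (rfl | ⟨p, rfl⟩)
        · exact hzm.1
        · have : b p ∈ univ.image b := Finset.mem_image_of_mem _ (mem_univ p)
          rw [hb.2, Finset.mem_filter] at this
          exact this.2
      · intro hx
        by_cases hxU : x ∈ M.U
        · right
          obtain ⟨p, rfl⟩ := M.mem_U.1 hxU
          have : p ∈ univ.image b := by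
            rw [hb.2, Finset.mem_filter]
            exact ⟨mem_univ _, hx⟩
          rw [Finset.mem_image] at this
          obtain ⟨q, -, rfl⟩ := this
          exact ⟨q, rfl⟩
        · left
          have : x ∈ f \ M.U := Finset.mem_sdiff.2 ⟨hx, hxU⟩
          rw [hz, Finset.mem_singleton] at this
          exact this
    rw [Finset.mem_coe, Finset.mem_filter, Finset.mem_filter]
    refine ⟨⟨?_, ?_⟩, hgb⟩
    · rw [hP, Finset.mem_sigma]
      refine ⟨mem_univ _, ?_⟩
      rw [mem_Nb]
      refine ⟨hzm.2, ?_⟩
      have : insert z (M.B b) = f := hgb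
      rw [this]
      exact hfF
    · rw [hgb]
      exact hf'
  · intro b _ b' _ hbb
    simpa using hbb

lemma supp_card_le (f : Finset V) : (M.supp f).card ≤ (f ∩ M.U).card := by
  classical
  have hpd : ∀ i ∈ M.supp f, ∀ j ∈ M.supp f, i ≠ j → Disjoint (f ∩ M.edge i) (f ∩ M.edge j) := by
    intro i _ j _ hij
    exact (M.edge_disjoint hij).mono Finset.inter_subset_right Finset.inter_subset_right
  calc (M.supp f).card = ∑ i ∈ M.supp f, 1 := by simp
    _ ≤ ∑ i ∈ M.supp f, (f ∩ M.edge i).card := by
        refine Finset.sum_le_sum (fun i hi => ?_)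
        rw [supp, Finset.mem_filter] at hi
        rw [Nat.one_le_iff_ne_zero]
        intro h0
        rw [Finset.card_eq_zero, ← Finset.disjoint_iff_inter_eq_empty] at h0
        exact hi.2 h0
    _ = ((M.supp f).biUnion (fun i => f ∩ M.edge i)).card := by
        rw [Finset.card_biUnion hpd]
    _ ≤ (f ∩ M.U).card := by
        refine Finset.card_le_card ?_
        intro x hx
        rw [Finset.mem_biUnion] at hx
        obtain ⟨i, -, hx⟩ := hx
        rw [Finset.mem_inter] at hx ⊢
        exact ⟨hx.1, M.edge_subset_U i hx.2⟩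

lemma mem_res_supp {f : Finset V} (hf : f ∈ F) {J : Finset (Fin s)} (hJ : M.supp f ⊆ J) :
    f ∈ M.res J := by
  rw [mem_res]
  refine ⟨hf, fun i hi => ?_⟩
  by_contra hd
  exact hi (hJ (by rw [supp, Finset.mem_filter]; exact ⟨mem_univ _, hd⟩))

/-- edges with at least two vertices outside `U` -/
lemma card_F2_le (h : Tight κ s F) (hs : κ - 1 ≤ s) (hκ : 1 ≤ κ) :
    (F.filter (fun f => 2 ≤ (f \ M.U).card)).card
      ≤ s ^ (κ - 1) * ((κ + 1) * (κ - 1)) ^ (κ + 1) := by
  classical
  have hsub : F.filter (fun f => 2 ≤ (f \ M.U).card) ⊆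
      (powersetCard (κ - 1) (univ : Finset (Fin s))).biUnion (fun J => M.res J) := by
    intro f hf
    rw [Finset.mem_filter] at hf
    have h1 := Finset.card_inter_add_card_sdiff f M.U
    have h2 := h.1 f hf.1
    have h3 := M.supp_card_le f
    obtain ⟨J, hJ, hJc⟩ := Finset.exists_superset_card_eq (n := κ - 1) (s := M.supp f)
      (by omega) (by simpa using hs)
    rw [Finset.mem_biUnion]
    refine ⟨J, ?_, M.mem_res_supp hf.1 hJ⟩
    rw [Finset.mem_powersetCard]
    exact ⟨Finset.subset_univ _, hJc⟩
  calc (F.filter (fun f => 2 ≤ (f \ M.U).card)).card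
      ≤ _ := Finset.card_le_card hsub
    _ ≤ ∑ J ∈ powersetCard (κ - 1) (univ : Finset (Fin s)), (M.res J).card := Finset.card_biUnion_le
    _ ≤ ∑ J ∈ powersetCard (κ - 1) (univ : Finset (Fin s)), ((κ + 1) * (κ - 1)) ^ (κ + 1) := by
        refine Finset.sum_le_sum (fun J hJ => ?_)
        have := (M.tight_res h J).lovasz
        rwa [(Finset.mem_powersetCard.1 hJ).2] at this
    _ = s.choose (κ - 1) * ((κ + 1) * (κ - 1)) ^ (κ + 1) := by simp
    _ ≤ s ^ (κ - 1) * ((κ + 1) * (κ - 1)) ^ (κ + 1) :=
        Nat.mul_le_mul_right _ (Nat.choose_le_pow s (κ - 1))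

/-! ### Exceptional frames -/

variable {W : Type*} [Fintype W] [DecidableEq W]

/-- index map -/
def idx (h : W → Fin s × Fin (κ + 1)) : W → Fin s := fun π => (h π).1

/-- exceptional frames, first kind -/
noncomputable def E0 (W : Type*) [Fintype W] [DecidableEq W] : Finset (W → Fin s × Fin (κ + 1)) := by
  classical
  exact univ.filter (fun h => ¬ Function.Injective (fun π => (h π).1) ∨
    ∃ ι : Fin (κ + 1) → W, Function.Injective ι ∧ (fun l => (h (ι l)).1) ∈ M.Bad)

lemma mem_E0 {h : W → Fin s × Fin (κ + 1)} : h ∈ M.E0 W ↔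
    (¬ Function.Injective (fun π => (h π).1) ∨
    ∃ ι : Fin (κ + 1) → W, Function.Injective ι ∧ (fun l => (h (ι l)).1) ∈ M.Bad) := by
  classical
  simp [E0]

lemma card_E0_le {q : ℕ} (hq : Fintype.card W = q) (hq2 : 2 ≤ q) (hs : 1 ≤ s) :
    (M.E0 W).card ≤ q ^ 2 * (κ + 1) * (s * (κ + 1)) ^ (q - 1)
      + q ^ (κ + 1) * (κ + 1) ^ (κ + 1) * M.Bad.card * (s * (κ + 1)) ^ (q - (κ + 1)) := by
  classical
  have hX : Fintype.card (Fin s × Fin (κ + 1)) = s * (κ + 1) := by simp
  set A : Finset (W → Fin s × Fin (κ + 1)) :=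
    (univ.filter (fun π : Fin 2 → W => Function.Injective π)).biUnion
      (fun π => univ.filter (fun h => (h (π 0)).1 = (h (π 1)).1)) with hA
  set C : Finset (W → Fin s × Fin (κ + 1)) :=
    (univ.filter (fun ι : Fin (κ + 1) → W => Function.Injective ι)).biUnion
      (fun ι => univ.filter (fun h => (fun l => (h (ι l)).1) ∈ M.Bad)) with hC
  have hsub : M.E0 W ⊆ A ∪ C := by
    intro h hh
    rw [mem_E0] at hh
    rw [Finset.mem_union]
    rcases hh with hh | ⟨ι, hι, hb⟩
    · left
      rw [Function.Injective] at hh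
      push Not at hh
      obtain ⟨a, b, hab, hne⟩ := hh
      rw [hA, Finset.mem_biUnion]
      refine ⟨![a, b], Finset.mem_filter.2 ⟨mem_univ _, ?_⟩, Finset.mem_filter.2 ⟨mem_univ _, ?_⟩⟩
      · intro i j hij
        fin_cases i <;> fin_cases j <;> simp_all
      · simpa using hab
    · right
      rw [hC, Finset.mem_biUnion]
      exact ⟨ι, Finset.mem_filter.2 ⟨mem_univ _, hι⟩, Finset.mem_filter.2 ⟨mem_univ _, hb⟩⟩
  have hAc : A.card ≤ q ^ 2 * (κ + 1) * (s * (κ + 1)) ^ (q - 1) := by
    calc A.card ≤ ∑ π ∈ univ.filter (fun π : Fin 2 → W => Function.Injective π),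
          (univ.filter (fun h : W → Fin s × Fin (κ + 1) => (h (π 0)).1 = (h (π 1)).1)).card :=
          Finset.card_biUnion_le
      _ ≤ ∑ π ∈ univ.filter (fun π : Fin 2 → W => Function.Injective π),
          (κ + 1) * (s * (κ + 1)) ^ (q - 1) := by
          refine Finset.sum_le_sum (fun π hπ => ?_)
          rw [Finset.mem_filter] at hπ
          have h1 := card_filter_comp (X := Fin s × Fin (κ + 1)) π hπ.2
            (fun x => (x 0).1 = (x 1).1)
          have h2 : (univ.filter (fun x : Fin 2 → Fin s × Fin (κ + 1) => (x 0).1 = (x 1).1)).card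
              = s * (κ + 1) ^ 2 := by
            have h3 := card_fst_comp (s := s) (k := κ + 1) (n := 2) (fun j => j 0 = j 1)
            rw [h3]
            congr 1
            have h4 : (univ.filter (fun j : Fin 2 → Fin s => j 0 = j 1)).card
                = (univ : Finset (Fin s)).card := by
              refine Finset.card_bij (fun j _ => j 0) (fun _ _ => mem_univ _) ?_ ?_
              · intro j hj j' hj' hjj
                rw [Finset.mem_filter] at hj hj'
                funext i
                fin_cases i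
                · exact hjj
                · simp only [Fin.mk_one]
                  rw [← hj.2, ← hj'.2]
                  exact hjj
              · intro i _
                exact ⟨fun _ => i, Finset.mem_filter.2 ⟨mem_univ _, rfl⟩, rfl⟩
            rw [h4]
            simp
          have h5 : (univ.filter (fun h : W → Fin s × Fin (κ + 1) => (h (π 0)).1 = (h (π 1)).1)).card
              = (s * (κ + 1)) ^ (q - 2) * (s * (κ + 1) ^ 2) := by
            rw [h2, hX, hq, Fintype.card_fin] at h1
            exact h1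
          rw [h5]
          have h6 : (s * (κ + 1)) ^ (q - 1) = (s * (κ + 1)) ^ (q - 2) * (s * (κ + 1)) := by
            rw [← pow_succ]
            congr 1
            omega
          rw [h6]
          apply le_of_eq
          ring
      _ = (univ.filter (fun π : Fin 2 → W => Function.Injective π)).card *
          ((κ + 1) * (s * (κ + 1)) ^ (q - 1)) := by simp
      _ ≤ q ^ 2 * ((κ + 1) * (s * (κ + 1)) ^ (q - 1)) := by
          refine Nat.mul_le_mul_right _ ?_
          calc _ ≤ (univ : Finset (Fin 2 → W)).card := Finset.card_le_univ _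
            _ = q ^ 2 := by simp [hq]
      _ = _ := by ring
  have hCc : C.card ≤ q ^ (κ + 1) * (κ + 1) ^ (κ + 1) * M.Bad.card *
      (s * (κ + 1)) ^ (q - (κ + 1)) := by
    calc C.card ≤ ∑ ι ∈ univ.filter (fun ι : Fin (κ + 1) → W => Function.Injective ι),
          (univ.filter (fun h : W → Fin s × Fin (κ + 1) => (fun l => (h (ι l)).1) ∈ M.Bad)).card :=
          Finset.card_biUnion_le
      _ ≤ ∑ ι ∈ univ.filter (fun ι : Fin (κ + 1) → W => Function.Injective ι),
          (s * (κ + 1)) ^ (q - (κ + 1)) * (M.Bad.card * (κ + 1) ^ (κ + 1)) := by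
          refine Finset.sum_le_sum (fun ι hι => ?_)
          rw [Finset.mem_filter] at hι
          have h1 := card_filter_comp (X := Fin s × Fin (κ + 1)) ι hι.2
            (fun x => (fun l => (x l).1) ∈ M.Bad)
          have h2 := card_fst_comp (s := s) (k := κ + 1) (n := κ + 1) (fun j => j ∈ M.Bad)
          rw [h2, hX, hq, Fintype.card_fin] at h1
          have h3 : univ.filter (fun j => j ∈ M.Bad) = M.Bad := by
            ext j; simp
          rw [h3] at h1
          exact le_of_eq h1
      _ = (univ.filter (fun ι : Fin (κ + 1) → W => Function.Injective ι)).card *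
          ((s * (κ + 1)) ^ (q - (κ + 1)) * (M.Bad.card * (κ + 1) ^ (κ + 1))) := by simp
      _ ≤ q ^ (κ + 1) * ((s * (κ + 1)) ^ (q - (κ + 1)) * (M.Bad.card * (κ + 1) ^ (κ + 1))) := by
          refine Nat.mul_le_mul_right _ ?_
          calc _ ≤ (univ : Finset (Fin (κ + 1) → W)).card := Finset.card_le_univ _
            _ = q ^ (κ + 1) := by simp [hq]
      _ = _ := by ring
  calc (M.E0 W).card ≤ (A ∪ C).card := Finset.card_le_card hsub
    _ ≤ A.card + C.card := Finset.card_union_le _ _
    _ ≤ _ := Nat.add_le_add hAc hCc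

/-- exceptional frames, second kind (relative to a set of indices `Js`) -/
noncomputable def E1 (W : Type*) [Fintype W] [DecidableEq W] (Js : Finset (Fin s)) :
    Finset (W → Fin s × Fin (κ + 1)) := by
  classical
  exact univ.filter (fun h => (∃ π, (h π).1 ∈ Js) ∨
    ∃ ι : Fin κ → W, Function.Injective ι ∧ ∃ e ∈ Js,
      (Fin.cons e (fun l => (h (ι l)).1) : Fin (κ + 1) → Fin s) ∈ M.Bad)

lemma mem_E1 {Js : Finset (Fin s)} {h : W → Fin s × Fin (κ + 1)} : h ∈ M.E1 W Js ↔
    ((∃ π, (h π).1 ∈ Js) ∨
    ∃ ι : Fin κ → W, Function.Injective ι ∧ ∃ e ∈ Js,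
      (Fin.cons e (fun l => (h (ι l)).1) : Fin (κ + 1) → Fin s) ∈ M.Bad) := by
  classical
  simp [E1]

lemma card_E1_le {q : ℕ} (hq : Fintype.card W = q) (Js : Finset (Fin s)) :
    (M.E1 W Js).card ≤ q * (κ + 1) * Js.card * (s * (κ + 1)) ^ (q - 1)
      + q ^ κ * (κ + 1) ^ κ * M.Bad.card * (s * (κ + 1)) ^ (q - κ) := by
  classical
  have hX : Fintype.card (Fin s × Fin (κ + 1)) = s * (κ + 1) := by simp
  set A : Finset (W → Fin s × Fin (κ + 1)) :=
    (univ : Finset (Fin 1 → W)).biUnion
      (fun π => univ.filter (fun h => (h (π 0)).1 ∈ Js)) with hA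
  set C : Finset (W → Fin s × Fin (κ + 1)) :=
    (univ.filter (fun ι : Fin κ → W => Function.Injective ι)).biUnion
      (fun ι => univ.filter (fun h => ∃ e ∈ Js,
      (Fin.cons e (fun l => (h (ι l)).1) : Fin (κ + 1) → Fin s) ∈ M.Bad)) with hC
  have hsub : M.E1 W Js ⊆ A ∪ C := by
    intro h hh
    rw [mem_E1] at hh
    rw [Finset.mem_union]
    rcases hh with ⟨π, hπ⟩ | ⟨ι, hι, hb⟩
    · left
      rw [hA, Finset.mem_biUnion]
      exact ⟨fun _ => π, mem_univ _, Finset.mem_filter.2 ⟨mem_univ _, hπ⟩⟩
    · right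
      rw [hC, Finset.mem_biUnion]
      exact ⟨ι, Finset.mem_filter.2 ⟨mem_univ _, hι⟩, Finset.mem_filter.2 ⟨mem_univ _, hb⟩⟩
  have hAc : A.card ≤ q * (κ + 1) * Js.card * (s * (κ + 1)) ^ (q - 1) := by
    calc A.card ≤ ∑ π : Fin 1 → W,
          (univ.filter (fun h : W → Fin s × Fin (κ + 1) => (h (π 0)).1 ∈ Js)).card :=
          Finset.card_biUnion_le
      _ ≤ ∑ π : Fin 1 → W, (s * (κ + 1)) ^ (q - 1) * (Js.card * (κ + 1)) := by
          refine Finset.sum_le_sum (fun π _ => ?_)
          have hπ : Function.Injective π := fun i j _ => Subsingleton.elim i j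
          have h1 := card_filter_comp (X := Fin s × Fin (κ + 1)) π hπ
            (fun x => (x 0).1 ∈ Js)
          have h2 := card_fst_comp (s := s) (k := κ + 1) (n := 1) (fun j => j 0 ∈ Js)
          have h3 : (univ.filter (fun j : Fin 1 → Fin s => j 0 ∈ Js)).card = Js.card := by
            refine Finset.card_bij (fun j _ => j 0) (fun j hj => (Finset.mem_filter.1 hj).2) ?_ ?_
            · intro j _ j' _ hjj
              funext i
              rw [Subsingleton.elim i 0]
              exact hjj
            · intro i hi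
              exact ⟨fun _ => i, Finset.mem_filter.2 ⟨mem_univ _, hi⟩, rfl⟩
          rw [h2, h3, hX, hq, Fintype.card_fin, pow_one] at h1
          exact le_of_eq h1
      _ = _ := by
          simp [hq]
          ring
  have hCc : C.card ≤ q ^ κ * (κ + 1) ^ κ * M.Bad.card *
      (s * (κ + 1)) ^ (q - κ) := by
    calc C.card ≤ ∑ ι ∈ univ.filter (fun ι : Fin κ → W => Function.Injective ι),
          (univ.filter (fun h : W → Fin s × Fin (κ + 1) => ∃ e ∈ Js,
      (Fin.cons e (fun l => (h (ι l)).1) : Fin (κ + 1) → Fin s) ∈ M.Bad)).card :=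
          Finset.card_biUnion_le
      _ ≤ ∑ ι ∈ univ.filter (fun ι : Fin κ → W => Function.Injective ι),
          (s * (κ + 1)) ^ (q - κ) * (M.Bad.card * (κ + 1) ^ κ) := by
          refine Finset.sum_le_sum (fun ι hι => ?_)
          rw [Finset.mem_filter] at hι
          have h1 := card_filter_comp (X := Fin s × Fin (κ + 1)) ι hι.2
            (fun x => ∃ e ∈ Js, (Fin.cons e (fun l => (x l).1) : Fin (κ + 1) → Fin s) ∈ M.Bad)
          have h2 := card_fst_comp (s := s) (k := κ + 1) (n := κ)
            (fun j => ∃ e ∈ Js, (Fin.cons e j : Fin (κ + 1) → Fin s) ∈ M.Bad)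
          rw [h2, hX, hq, Fintype.card_fin] at h1
          have h3 : (univ.filter (fun j : Fin κ → Fin s =>
              ∃ e ∈ Js, (Fin.cons e j : Fin (κ + 1) → Fin s) ∈ M.Bad)).card ≤ M.Bad.card := by
            refine le_trans (Finset.card_le_card ?_)
              (Finset.card_image_le (s := M.Bad) (f := fun j => Fin.tail j))
            intro j hj
            obtain ⟨e, -, he⟩ := (Finset.mem_filter.1 hj).2
            rw [Finset.mem_image]
            exact ⟨_, he, Fin.tail_cons _ _⟩
          refine le_trans (le_of_eq h1) ?_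
          exact Nat.mul_le_mul_left _ (Nat.mul_le_mul_right _ h3)
      _ = (univ.filter (fun ι : Fin κ → W => Function.Injective ι)).card *
          ((s * (κ + 1)) ^ (q - κ) * (M.Bad.card * (κ + 1) ^ κ)) := by simp
      _ ≤ q ^ κ * ((s * (κ + 1)) ^ (q - κ) * (M.Bad.card * (κ + 1) ^ κ)) := by
          refine Nat.mul_le_mul_right _ ?_
          calc _ ≤ (univ : Finset (Fin κ → W)).card := Finset.card_le_univ _
            _ = q ^ κ := by simp [hq]
      _ = _ := by ring
  calc (M.E1 W Js).card ≤ (A ∪ C).card := Finset.card_le_card hsub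
    _ ≤ A.card + C.card := Finset.card_union_le _ _
    _ ≤ _ := Nat.add_le_add hAc hCc

end IMatch

end Pool.Agent.H73.Cov
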