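import Mathlib
import Pool.Agent.H73.CovB

set_option autoImplicit false

namespace Pool.Agent.H73.Cov

open Finset

namespace IMatch

variable {V : Type*} [DecidableEq V] {κ s : ℕ} {F : Finset (Finset V)} (M : IMatch κ s F)

lemma inj_of_not_E0 {W : Type*} [Fintype W] [DecidableEq W] {h : W → Fin s × Fin (κ + 1)}
    (hh : h ∉ M.E0 W) : Function.Injective (fun π => (h π).1) := by
  rw [mem_E0] at hh
  push Not at hh
  exact hh.1

lemma full_of_not_E0 {W : Type*} [Fintype W] [DecidableEq W] {h : W → Fin s × Fin (κ + 1)}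
    (hh : h ∉ M.E0 W) (ι : Fin (κ + 1) → W) (hι : Function.Injective ι)
    (a : Fin (κ + 1) → Fin (κ + 1)) :
    univ.image (fun l => M.v ((h (ι l)).1, a l)) ∈ F := by
  have hinj := M.inj_of_not_E0 hh
  rw [mem_E0] at hh
  push Not at hh
  have h1 := hh.2 ι hι
  rw [mem_Bad] at h1
  by_contra hc
  exact h1 ⟨fun i j hij => hι (hinj hij), a, hc⟩

/-- the family of edges built from a frame -/
def blk {m r : ℕ} (h : Fin m × Fin κ → Fin s × Fin (κ + 1)) (R : Fin (κ + 1) × Fin r → Fin m)
    (u : Fin (κ + 1) × Fin r → V) :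
    (Fin (κ + 1) × Fin r) ⊕ (Fin r × Fin κ × Fin κ) → Finset V
  | Sum.inl c => insert (u c) (M.B (fun p => h (R c, p)))
  | Sum.inr t => univ.image (fun c : Fin (κ + 1) =>
      M.v ((h (R (c, t.1), t.2.1)).1, (h (R (c, t.1), t.2.1)).2.succAbove t.2.2))

lemma mem_blk_inl {m r : ℕ} {h : Fin m × Fin κ → Fin s × Fin (κ + 1)}
    {R : Fin (κ + 1) × Fin r → Fin m} {u : Fin (κ + 1) × Fin r → V}
    {c : Fin (κ + 1) × Fin r} {x : V} :
    x ∈ M.blk h R u (Sum.inl c) ↔ x = u c ∨ ∃ p, M.v (h (R c, p)) = x := by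
  simp [blk, mem_B]

lemma mem_blk_inr {m r : ℕ} {h : Fin m × Fin κ → Fin s × Fin (κ + 1)}
    {R : Fin (κ + 1) × Fin r → Fin m} {u : Fin (κ + 1) × Fin r → V}
    {t : Fin r × Fin κ × Fin κ} {x : V} :
    x ∈ M.blk h R u (Sum.inr t) ↔ ∃ c, M.v ((h (R (c, t.1), t.2.1)).1,
      (h (R (c, t.1), t.2.1)).2.succAbove t.2.2) = x := by
  simp [blk]

lemma blk_disjoint {m r : ℕ} {h : Fin m × Fin κ → Fin s × Fin (κ + 1)}
    (hh : h ∉ M.E0 (Fin m × Fin κ))
    (R : Fin (κ + 1) × Fin r → Fin m) (hR : Function.Injective R)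
    (u : Fin (κ + 1) × Fin r → V) (hu : Function.Injective u)
    (hu1 : ∀ c c' p, u c ∉ M.edge (h (R c', p)).1) :
    ∀ x y, x ≠ y → Disjoint (M.blk h R u x) (M.blk h R u y) := by
  have hinj := M.inj_of_not_E0 hh
  have key1 : ∀ (c : Fin (κ + 1) × Fin r) (t : Fin r × Fin κ × Fin κ),
      Disjoint (M.blk h R u (Sum.inl c)) (M.blk h R u (Sum.inr t)) := by
    intro c t
    rw [Finset.disjoint_left]
    intro x hx hx'
    rw [mem_blk_inl] at hx
    rw [mem_blk_inr] at hx'
    obtain ⟨c', rfl⟩ := hx'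
    rcases hx with hx | ⟨p, hx⟩
    · apply hu1 c (c', t.1) t.2.1
      rw [← hx, v_mem_edge]
    · have h1 := M.inj hx
      have h2 : (h (R c, p)).1 = (h (R (c', t.1), t.2.1)).1 := by rw [h1]
      have h3 := hinj h2
      have h4 : (h (R c, p)).2 = (h (R (c', t.1), t.2.1)).2.succAbove t.2.2 := by rw [h1]
      rw [h3] at h4
      exact Fin.succAbove_ne _ _ h4.symm
  rintro (c | t) (c' | t') hne
  · rw [Finset.disjoint_left]
    intro x hx hx'
    rw [mem_blk_inl] at hx hx'
    have hcc : c ≠ c' := fun hc => hne (by rw [hc])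
    rcases hx with rfl | ⟨p, rfl⟩
    · rcases hx' with hx' | ⟨p', hx'⟩
      · exact hcc (hu hx')
      · apply hu1 c c' p'
        rw [← hx', v_mem_edge]
    · rcases hx' with hx' | ⟨p', hx'⟩
      · apply hu1 c' c p
        rw [← hx', v_mem_edge]
      · have h1 := M.inj hx'
        have h2 : (h (R c', p')).1 = (h (R c, p)).1 := by rw [h1]
        have h3 := hinj h2
        rw [Prod.mk.injEq] at h3
        exact hcc (hR h3.1).symm
  · exact key1 c t'
  · exact (key1 c' t).symm
  · rw [Finset.disjoint_left]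
    intro x hx hx'
    rw [mem_blk_inr] at hx hx'
    obtain ⟨c, rfl⟩ := hx
    obtain ⟨c', hx'⟩ := hx'
    have h1 := M.inj hx'
    rw [Prod.mk.injEq] at h1
    have h3 := hinj h1.1
    rw [Prod.mk.injEq] at h3
    have h4 := hR h3.1
    rw [Prod.mk.injEq] at h4
    apply hne
    congr 1
    obtain ⟨t1, t2, t3⟩ := t
    obtain ⟨t1', t2', t3'⟩ := t'
    simp only at h3 h4 h1
    obtain ⟨h4a, h4b⟩ := h4
    obtain ⟨-, h3b⟩ := h3
    subst h4a
    subst h4b
    subst h3b
    have := Fin.succAbove_right_injective h1.2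
    rw [this]

lemma block_card (hT : Tight κ s F) {m r : ℕ} {h : Fin m × Fin κ → Fin s × Fin (κ + 1)}
    (hh : h ∉ M.E0 (Fin m × Fin κ))
    (R : Fin (κ + 1) × Fin r → Fin m) (hR : Function.Injective R)
    (u : Fin (κ + 1) × Fin r → V) (hu : Function.Injective u)
    (hu1 : ∀ c c' p, u c ∉ M.edge (h (R c', p)).1)
    (hu2 : ∀ c, insert (u c) (M.B (fun p => h (R c, p))) ∈ F)
    (J' : Finset (Fin s)) (hJ : ∀ c p, (h (R c, p)).1 ∈ J')
    (huJ : ∀ c i, i ∉ J' → u c ∉ M.edge i)
    {ε : Type*} [Fintype ε] (gε : ε → Finset V) (hε : ∀ x, gε x ∈ M.res J')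
    (hεd : ∀ x y, x ≠ y → Disjoint (gε x) (gε y))
    (hε1 : ∀ x c, u c ∉ gε x)
    (hε2 : ∀ x c p, Disjoint (gε x) (M.edge (h (R c, p)).1)) :
    (κ + 1) * r + r * (κ * κ) + Fintype.card ε ≤ J'.card := by
  classical
  have key := M.card_le_of_family hT J'
    (ι := ((Fin (κ + 1) × Fin r) ⊕ (Fin r × Fin κ × Fin κ)) ⊕ ε)
    (Sum.elim (M.blk h R u) gε) ?_ ?_
  · simpa using key
  · rintro ((c | t) | x)
    · simp only [Sum.elim_inl]
      rw [mem_res]
      refine ⟨hu2 c, fun i hi => ?_⟩
      rw [Finset.disjoint_left]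
      intro x hx hx'
      rw [mem_blk_inl] at hx
      rcases hx with rfl | ⟨p, rfl⟩
      · exact huJ c i hi hx'
      · rw [v_mem_edge] at hx'
        exact hi (hx' ▸ hJ c p)
    · simp only [Sum.elim_inl]
      rw [mem_res]
      refine ⟨?_, fun i hi => ?_⟩
      · exact M.full_of_not_E0 hh (fun c => (R (c, t.1), t.2.1)) (fun c c' hcc => by
          rw [Prod.mk.injEq] at hcc
          have := hR hcc.1
          rw [Prod.mk.injEq] at this
          exact this.1) _
      · rw [Finset.disjoint_left]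
        intro x hx hx'
        rw [mem_blk_inr] at hx
        obtain ⟨c, rfl⟩ := hx
        rw [v_mem_edge] at hx'
        exact hi (hx' ▸ hJ (c, t.1) t.2.1)
    · exact hε x
  · have hmix : ∀ (y : (Fin (κ + 1) × Fin r) ⊕ (Fin r × Fin κ × Fin κ)) (x : ε),
        Disjoint (M.blk h R u y) (gε x) := by
      rintro (c | t) x
      · rw [Finset.disjoint_left]
        intro z hz hz'
        rw [mem_blk_inl] at hz
        rcases hz with rfl | ⟨p, rfl⟩
        · exact hε1 x c hz'
        · exact Finset.disjoint_left.1 (hε2 x c p) hz' (M.v_mem_edge.2 rfl)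
      · rw [Finset.disjoint_left]
        intro z hz hz'
        rw [mem_blk_inr] at hz
        obtain ⟨c, rfl⟩ := hz
        exact Finset.disjoint_left.1 (hε2 x (c, t.1) t.2.1) hz' (M.v_mem_edge.2 rfl)
    rintro (x | x) (y | y) hne
    · simp only [Sum.elim_inl]
      exact M.blk_disjoint hh R hR u hu hu1 x y (fun hc => hne (by rw [hc]))
    · simp only [Sum.elim_inl, Sum.elim_inr]
      exact hmix x y
    · simp only [Sum.elim_inl, Sum.elim_inr]
      exact (hmix y x).symm
    · simp only [Sum.elim_inr]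
      exact hεd x y (fun hc => hne (by rw [hc]))

variable [Fintype V]

/-- outside neighbourhood of the `i`-th row -/
def row {m : ℕ} (h : Fin m × Fin κ → Fin s × Fin (κ + 1)) (i : Fin m) : Finset V :=
  M.Nb (fun p => h (i, p))

lemma no_sdr (hT : Tight κ s F) {m : ℕ} {h : Fin m × Fin κ → Fin s × Fin (κ + 1)}
    (hh : h ∉ M.E0 (Fin m × Fin κ)) (R₀ : Fin (κ + 1) → Fin m) (hR : Function.Injective R₀)
    (z : Fin (κ + 1) → V) (hz : Function.Injective z) (hzR : ∀ c, z c ∈ M.row h (R₀ c)) :
    False := by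
  classical
  have hzU : ∀ c, z c ∉ M.U := fun c => (M.mem_Nb.1 (hzR c)).1
  have := M.block_card hT hh (r := 1) (fun c => R₀ c.1)
    (fun c c' hcc => Prod.ext (hR hcc) (Subsingleton.elim _ _))
    (fun c => z c.1) (fun c c' hcc => Prod.ext (hz hcc) (Subsingleton.elim _ _))
    (fun c c' p hc => hzU c.1 (M.edge_subset_U _ hc))
    (fun c => (M.mem_Nb.1 (hzR c.1)).2)
    (univ.image (fun c : Fin (κ + 1) × Fin κ => (h (R₀ c.1, c.2)).1))
    (fun c p => Finset.mem_image.2 ⟨(c.1, p), mem_univ _, rfl⟩)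
    (fun c i _ hc => hzU c.1 (M.edge_subset_U _ hc))
    (ε := Empty) (fun x => x.elim) (fun x => x.elim) (fun x => x.elim) (fun x => x.elim)
    (fun x => x.elim)
  have h2 : (univ.image (fun c : Fin (κ + 1) × Fin κ => (h (R₀ c.1, c.2)).1)).card
      ≤ (κ + 1) * κ := by
    refine le_trans Finset.card_image_le ?_
    simp
  simp only [Fintype.card_empty] at this
  nlinarith

lemma structure_lemma (hT : Tight κ s F) (hκ : 1 ≤ κ) {m : ℕ} (hm : κ * ((κ + 1) * κ) + 1 ≤ m)
    {h : Fin m × Fin κ → Fin s × Fin (κ + 1)}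
    (hh : h ∉ M.E0 (Fin m × Fin κ)) :
    (∑ i, (M.row h i).card + 1 ≤ κ * m) ∨
      ∃ Z₀ : Finset V, Z₀.card = κ ∧ ∀ i, M.row h i = Z₀ := by
  classical
  set A : Finset (Fin m) := univ.filter (fun i => κ ≤ (M.row h i).card) with hA
  by_cases hAc : κ + 1 ≤ A.card
  · -- all rows in `A` are equal of size `κ`
    have key : ∀ i ∈ A, ∀ j ∈ A, M.row h i = M.row h j ∧ (M.row h i).card = κ := by
      intro i hi j hj
      obtain ⟨S, hS1, hS2, hS3⟩ := Finset.exists_subsuperset_card_eq (s := {i, j}) (t := A)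
        (n := κ + 1) (by
          intro x hx
          rw [Finset.mem_insert, Finset.mem_singleton] at hx
          rcases hx with rfl | rfl
          · exact hi
          · exact hj)
        (le_trans (Finset.card_le_two) (by omega)) hAc
      let e : Fin (κ + 1) ≃ S := (Finset.equivFinOfCardEq hS3).symm
      let R₀ : Fin (κ + 1) → Fin m := fun c => (e c : Fin m)
      have hR : Function.Injective R₀ := fun c c' hcc => e.injective (Subtype.ext hcc)
      have hRA : ∀ c, R₀ c ∈ A := fun c => hS2 (e c).2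
      have hno : ¬ ∀ T : Finset (Fin (κ + 1)), T.card ≤ (T.biUnion (fun c => M.row h (R₀ c))).card := by
        intro hall
        rw [Finset.all_card_le_biUnion_card_iff_exists_injective] at hall
        obtain ⟨z, hz, hz'⟩ := hall
        exact M.no_sdr hT hh R₀ hR z hz hz'
      push Not at hno
      obtain ⟨T, hTlt⟩ := hno
      have hTne : T.Nonempty := by
        rw [Finset.nonempty_iff_ne_empty]
        rintro rfl
        simp at hTlt
      obtain ⟨c₀, hc₀⟩ := hTne
      have h1 : κ ≤ (M.row h (R₀ c₀)).card := (Finset.mem_filter.1 (hRA c₀)).2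
      have h2 : (M.row h (R₀ c₀)).card ≤ (T.biUnion (fun c => M.row h (R₀ c))).card :=
        Finset.card_le_card (Finset.subset_biUnion_of_mem (fun c => M.row h (R₀ c)) hc₀)
      have h3 : T.card ≤ κ + 1 := by simpa using Finset.card_le_univ T
      have hTu : T = univ := by
        apply Finset.eq_univ_of_card
        simp
        omega
      have hUc : (T.biUnion (fun c => M.row h (R₀ c))).card = κ := by omega
      have heq : ∀ c, M.row h (R₀ c) = T.biUnion (fun c => M.row h (R₀ c)) := by
        intro c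
        apply Finset.eq_of_subset_of_card_le
        · exact Finset.subset_biUnion_of_mem (fun c => M.row h (R₀ c)) (by rw [hTu]; exact mem_univ c)
        · rw [hUc]
          exact (Finset.mem_filter.1 (hRA c)).2
      have hi' : ∃ c, R₀ c = i := ⟨e.symm ⟨i, hS1 (by simp)⟩, by simp [R₀]⟩
      have hj' : ∃ c, R₀ c = j := ⟨e.symm ⟨j, hS1 (by simp)⟩, by simp [R₀]⟩
      obtain ⟨ci, rfl⟩ := hi'
      obtain ⟨cj, rfl⟩ := hj'
      exact ⟨(heq ci).trans (heq cj).symm, by rw [heq ci, hUc]⟩
    by_cases hAu : A = univ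
    · right
      have hm0 : 0 < m := by omega
      refine ⟨M.row h ⟨0, hm0⟩, (key _ (by rw [hAu]; exact mem_univ _) _
        (by rw [hAu]; exact mem_univ ⟨0, hm0⟩)).2, ?_⟩
      intro i
      exact (key i (by rw [hAu]; exact mem_univ _) _ (by rw [hAu]; exact mem_univ _)).1
    · left
      have hex : ∃ i, i ∉ A := by
        by_contra hc
        push Not at hc
        exact hAu (Finset.eq_univ_iff_forall.2 hc)
      obtain ⟨i₀, hi₀⟩ := hex
      have hle : ∀ i, (M.row h i).card ≤ κ := by
        intro i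
        by_cases hi : i ∈ A
        · exact le_of_eq (key i hi i hi).2
        · rw [hA, Finset.mem_filter] at hi
          push Not at hi
          exact le_of_lt (hi (mem_univ _))
      have hlt : (M.row h i₀).card < κ := by
        rw [hA, Finset.mem_filter] at hi₀
        push Not at hi₀
        exact hi₀ (mem_univ _)
      have : ∑ i, (M.row h i).card < ∑ i : Fin m, κ :=
        Finset.sum_lt_sum (fun i _ => hle i) ⟨i₀, mem_univ _, hlt⟩
      simp only [Finset.sum_const, Finset.card_univ, Fintype.card_fin, smul_eq_mul] at this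
      rw [mul_comm κ m]
      omega
  · left
    push Not at hAc
    have h1 : ∑ i, (M.row h i).card ≤ ∑ i : Fin m, ((κ - 1) + if i ∈ A then (κ + 1) * κ else 0) := by
      refine Finset.sum_le_sum (fun i _ => ?_)
      by_cases hi : i ∈ A
      · rw [if_pos hi]
        exact le_trans (M.Nb_card_le hT _) (Nat.le_add_left _ _)
      · rw [if_neg hi]
        rw [hA, Finset.mem_filter] at hi
        push Not at hi
        have := hi (mem_univ _)
        omega
    rw [Finset.sum_add_distrib, ← Finset.sum_filter] at h1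
    simp only [Finset.sum_const, Finset.card_univ, Fintype.card_fin, smul_eq_mul] at h1
    have h2 : (univ.filter (fun i => i ∈ A)).card ≤ κ := by
      have : univ.filter (fun i => i ∈ A) = A := by ext i; simp
      rw [this]
      omega
    have h3 := Nat.mul_le_mul_right ((κ + 1) * κ) h2
    obtain ⟨κ', rfl⟩ : ∃ κ', κ = κ' + 1 := ⟨κ - 1, by omega⟩
    simp only [Nat.add_sub_cancel] at h1
    nlinarith

lemma final_lemma (hT : Tight κ s F) {m : ℕ} (hm : (κ + 1) * κ ≤ m) (hm0 : 0 < m)
    {h : Fin m × Fin κ → Fin s × Fin (κ + 1)}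
    (hh : h ∉ M.E0 (Fin m × Fin κ)) (Js : Finset (Fin s)) (hh1 : h ∉ M.E1 (Fin m × Fin κ) Js)
    (y : Fin (κ + 1) → V) (hy : Function.Injective y) (hyU : ∀ c, y c ∉ M.U)
    (f : Fin (κ + 1) → Finset V) (hf : ∀ c, f c ∈ F) (hyf : ∀ c, y c ∈ f c)
    (hfJ : ∀ c, M.supp (f c) ⊆ Js) (Z₀ : Finset V) (hZc : Z₀.card = κ)
    (hZ : ∀ i, M.row h i = Z₀) : False := by
  classical
  have hinj := M.inj_of_not_E0 hh
  rw [mem_E1] at hh1
  push Not at hh1
  obtain ⟨hh1a, hh1b⟩ := hh1
  have hex : ∃ c, y c ∉ Z₀ := by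
    by_contra hc
    push Not at hc
    have : (univ.image y).card ≤ Z₀.card := Finset.card_le_card (by
      intro x hx
      rw [Finset.mem_image] at hx
      obtain ⟨c, -, rfl⟩ := hx
      exact hc c)
    rw [Finset.card_image_of_injective _ hy, hZc] at this
    simp at this
  obtain ⟨c₀, hc₀⟩ := hex
  set g := f c₀ with hg
  set r := (M.supp g).card with hr
  have hgF : g ∈ F := hf c₀
  have hgJ : M.supp g ⊆ Js := hfJ c₀
  have hgc : g.card = κ + 1 := hT.1 g hgF
  have hyg : y c₀ ∈ g := hyf c₀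
  have hrκ : r ≤ κ := by
    have h1 := M.supp_card_le g
    have h2 := Finset.card_inter_add_card_sdiff g M.U
    have h3 : 1 ≤ (g \ M.U).card := by
      rw [Nat.one_le_iff_ne_zero, Ne, Finset.card_eq_zero]
      intro h0
      have : y c₀ ∈ g \ M.U := Finset.mem_sdiff.2 ⟨hyg, hyU c₀⟩
      rw [h0] at this
      simp at this
    omega
  have hZU : ∀ z ∈ Z₀, z ∉ M.U := by
    intro z hz
    rw [← hZ ⟨0, hm0⟩] at hz
    exact (M.mem_Nb.1 hz).1
  set S₀ := (M.supp g).biUnion M.edge ∪ Z₀ with hS₀
  have hS₀c : S₀.card = (κ + 1) * r + κ := by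
    rw [hS₀, Finset.card_union_of_disjoint, hZc, Finset.card_biUnion]
    · congr 1
      rw [Finset.sum_congr rfl (fun i _ => M.edge_card i)]
      simp [hr, mul_comm]
    · intro i _ j _ hij
      exact M.edge_disjoint hij
    · rw [Finset.disjoint_left]
      intro x hx hx'
      rw [Finset.mem_biUnion] at hx
      obtain ⟨i, -, hx⟩ := hx
      exact hZU x hx' (M.edge_subset_U i hx)
  have hS₀U : ∀ x ∈ S₀, x ≠ y c₀ := by
    intro x hx hxy
    rw [hS₀, Finset.mem_union, Finset.mem_biUnion] at hx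
    rcases hx with ⟨i, -, hx⟩ | hx
    · rw [hxy] at hx
      exact hyU c₀ (M.edge_subset_U i hx)
    · rw [hxy] at hx
      exact hc₀ hx
  have hS₁c : (κ + 1) * r ≤ (S₀ \ g).card := by
    have h1 := Finset.card_sdiff_add_card_inter S₀ g
    have h2 : (S₀ ∩ g).card ≤ κ := by
      have : S₀ ∩ g ⊆ g.erase (y c₀) := by
        intro x hx
        rw [Finset.mem_inter] at hx
        rw [Finset.mem_erase]
        exact ⟨hS₀U x hx.1, hx.2⟩
      refine le_trans (Finset.card_le_card this) ?_
      rw [Finset.card_erase_of_mem hyg, hgc]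
      omega
    omega
  obtain ⟨u'⟩ : Nonempty ((Fin (κ + 1) × Fin r) ↪ (S₀ \ g : Finset V)) :=
    Function.Embedding.nonempty_of_card_le (by
      rw [Fintype.card_coe, Fintype.card_prod, Fintype.card_fin, Fintype.card_fin]
      exact hS₁c)
  obtain ⟨R'⟩ : Nonempty ((Fin (κ + 1) × Fin r) ↪ Fin m) :=
    Function.Embedding.nonempty_of_card_le (by
      simp only [Fintype.card_prod, Fintype.card_fin]
      exact le_trans (Nat.mul_le_mul_left _ hrκ) hm)
  have hucase : ∀ c, ((u' c : V) ∈ Z₀ ∨ ∃ e ∈ M.supp g, ∃ a, M.v (e, a) = (u' c : V)) := by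
    intro c
    have h1 : (u' c : V) ∈ (M.supp g).biUnion M.edge ∪ Z₀ := (Finset.mem_sdiff.1 (u' c).2).1
    rw [Finset.mem_union, Finset.mem_biUnion] at h1
    rcases h1 with ⟨e, he, h1⟩ | h1
    · right
      exact ⟨e, he, M.mem_edge.1 h1⟩
    · left
      exact h1
  have hug : ∀ c, (u' c : V) ∉ g := fun c => (Finset.mem_sdiff.1 (u' c).2).2
  have := M.block_card hT hh (r := r) (fun c => R' c) R'.injective
    (fun c => (u' c : V)) (fun c c' hcc => u'.injective (Subtype.ext hcc))
    (by
      intro c c' p hc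
      rcases hucase c with h1 | ⟨e, he, a, h1⟩
      · exact hZU _ h1 (M.edge_subset_U _ hc)
      · rw [← h1, v_mem_edge] at hc
        exact hh1a (R' c', p) (hc ▸ hgJ he))
    (by
      intro c
      rcases hucase c with h1 | ⟨e, he, a, h1⟩
      · rw [← hZ (R' c)] at h1
        exact (M.mem_Nb.1 h1).2
      · have h2 := hh1b (fun p => (R' c, p)) (fun p p' hpp => (Prod.mk.injEq _ _ _ _ ▸ hpp).2)
          e (hgJ he)
        rw [mem_Bad] at h2
        push Not at h2
        have hinj2 : Function.Injective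
            (Fin.cons e (fun l => (h (R' c, l)).1) : Fin (κ + 1) → Fin s) := by
          rw [Fin.cons_injective_iff]
          constructor
          · rintro ⟨l, hl⟩
            have hl' : (h (R' c, l)).1 = e := hl
            exact hh1a (R' c, l) (by rw [hl']; exact hgJ he)
          · intro l l' hll
            have := hinj hll
            rw [Prod.mk.injEq] at this
            exact this.2
        have h3 := h2 hinj2 (Fin.cons a (fun l => (h (R' c, l)).2))
        have h4 : univ.image (fun l => M.v ((Fin.cons e (fun l => (h (R' c, l)).1) : Fin (κ + 1) → Fin s) l,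
            (Fin.cons a (fun l => (h (R' c, l)).2) : Fin (κ + 1) → Fin (κ + 1)) l))
            = insert (u' c : V) (M.B (fun p => h (R' c, p))) := by
          ext x
          simp only [Finset.mem_image, Finset.mem_univ, true_and, Finset.mem_insert, mem_B]
          rw [Fin.exists_fin_succ]
          simp only [Fin.cons_zero, Fin.cons_succ, h1, Prod.mk.eta]
          constructor
          · rintro (h5 | h5)
            · exact Or.inl h5.symm
            · exact Or.inr h5
          · rintro (h5 | h5)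
            · exact Or.inl h5.symm
            · exact Or.inr h5
        rw [← h4]
        exact h3)
    (univ.image (fun c : (Fin (κ + 1) × Fin r) × Fin κ => (h (R' c.1, c.2)).1) ∪ M.supp g)
    (fun c p => Finset.mem_union_left _ (Finset.mem_image.2 ⟨(c, p), mem_univ _, rfl⟩))
    (by
      intro c i hi hc
      rcases hucase c with h1 | ⟨e, he, a, h1⟩
      · exact hZU _ h1 (M.edge_subset_U _ hc)
      · rw [← h1, v_mem_edge] at hc
        exact hi (Finset.mem_union_right _ (hc ▸ he)))
    (ε := Unit) (fun _ => g)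
    (fun _ => M.mem_res_supp hgF Finset.subset_union_right)
    (fun x y hxy => absurd (Subsingleton.elim x y) hxy)
    (fun _ c => hug c)
    (by
      intro _ c p
      by_contra hd
      have : (h (R' c, p)).1 ∈ M.supp g := by
        rw [supp, Finset.mem_filter]
        exact ⟨mem_univ _, hd⟩
      exact hh1a (R' c, p) (hgJ this))
  have h2 : (univ.image (fun c : (Fin (κ + 1) × Fin r) × Fin κ => (h (R' c.1, c.2)).1)
      ∪ M.supp g).card ≤ (κ + 1) * r * κ + r := by
    refine le_trans (Finset.card_union_le _ _) ?_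
    refine Nat.add_le_add (le_trans Finset.card_image_le ?_) (le_of_eq hr.symm)
    simp
  simp only [Fintype.card_unit] at this
  nlinarith

end IMatch

end Pool.Agent.H73.Cov
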