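import Mathlib
import Pool.Agent.H73.CovC

set_option autoImplicit false

namespace Pool.Agent.H73.Cov

open Finset

lemma sum_le_of_exceptional {α : Type*} [Fintype α] [DecidableEq α] (φ : α → ℕ) (E : Finset α)
    (a b : ℕ) (h1 : ∀ x, x ∉ E → φ x ≤ a) (h2 : ∀ x, φ x ≤ b) :
    ∑ x, φ x ≤ a * Fintype.card α + b * E.card := by
  calc ∑ x, φ x ≤ ∑ x : α, (a + if x ∈ E then b else 0) := by
        refine Finset.sum_le_sum (fun x _ => ?_)
        by_cases hx : x ∈ E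
        · rw [if_pos hx]
          exact le_trans (h2 x) (Nat.le_add_left _ _)
        · rw [if_neg hx]
          exact h1 x hx
    _ = a * Fintype.card α + b * E.card := by
        rw [Finset.sum_add_distrib, ← Finset.sum_filter]
        have : univ.filter (fun x => x ∈ E) = E := by ext i; simp
        rw [this]
        simp [mul_comm]

lemma pow_le_descFactorial (N κ : ℕ) :
    N ^ (κ + 1) ≤ N.descFactorial (κ + 1) + (κ + 1) ^ 2 * N ^ κ := by
  induction κ with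
  | zero => simp
  | succ κ ih =>
    have h1 : N.descFactorial (κ + 1 + 1) = (N - (κ + 1)) * N.descFactorial (κ + 1) :=
      Nat.descFactorial_succ N (κ + 1)
    have h2 : N * N.descFactorial (κ + 1)
        ≤ (N - (κ + 1)) * N.descFactorial (κ + 1) + (κ + 1) * N.descFactorial (κ + 1) := by
      rw [← Nat.add_mul]
      exact Nat.mul_le_mul_right _ (by omega)
    have h3 : N.descFactorial (κ + 1) ≤ N ^ (κ + 1) := Nat.descFactorial_le_pow N (κ + 1)
    have h3' := Nat.mul_le_mul_left (κ + 1) h3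
    have h4 := Nat.mul_le_mul_left N ih
    have h5 : N ^ (κ + 1 + 1) = N * N ^ (κ + 1) := by rw [pow_succ, mul_comm]
    have h6 : N * ((κ + 1) ^ 2 * N ^ κ) = (κ + 1) ^ 2 * N ^ (κ + 1) := by
      rw [pow_succ]; ring
    rw [Nat.mul_add, h6] at h4
    rw [h5, h1]
    have h7 : (κ + 1 + 1) ^ 2 * N ^ (κ + 1)
        = (κ + 1) ^ 2 * N ^ (κ + 1) + (κ + 1) * N ^ (κ + 1) + (κ + 2) * N ^ (κ + 1) := by ring
    rw [h7]
    omega

lemma choose_add_ge (N κ j : ℕ) :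
    N.choose (κ + 1) + j * N.choose κ ≤ (N + j).choose (κ + 1) := by
  induction j with
  | zero => simp
  | succ j ih =>
    have h1 : (N + (j + 1)).choose (κ + 1) = (N + j).choose κ + (N + j).choose (κ + 1) := by
      rw [← Nat.add_assoc, Nat.choose_succ_succ]
    have h2 : N.choose κ ≤ (N + j).choose κ := Nat.choose_le_choose κ (Nat.le_add_right N j)
    rw [h1, Nat.add_mul]
    omega

namespace IMatch

variable {V : Type*} [DecidableEq V] {κ s : ℕ} {F : Finset (Finset V)} (M : IMatch κ s F)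

lemma card_F_le (F : Finset (Finset V)) (U : Finset V) : F.card ≤ (F.filter (fun f => f ⊆ U)).card +
    (F.filter (fun f => (f \ U).card = 1)).card +
    (F.filter (fun f => 2 ≤ (f \ U).card)).card := by
  classical
  have hsub : F ⊆ (F.filter (fun f => f ⊆ U) ∪ F.filter (fun f => (f \ U).card = 1)) ∪
      F.filter (fun f => 2 ≤ (f \ U).card) := by
    intro f hf
    rw [Finset.mem_union, Finset.mem_union, Finset.mem_filter, Finset.mem_filter, Finset.mem_filter]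
    rcases Nat.lt_or_ge (f \ U).card 2 with h | h
    · left
      rcases Nat.lt_or_ge (f \ U).card 1 with h' | h'
      · left
        refine ⟨hf, ?_⟩
        have : (f \ U).card = 0 := by omega
        rwa [Finset.card_eq_zero, Finset.sdiff_eq_empty_iff_subset] at this
      · right
        exact ⟨hf, by omega⟩
    · right
      exact ⟨hf, h⟩
  refine le_trans (Finset.card_le_card hsub) ?_
  refine le_trans (Finset.card_union_le _ _) ?_
  exact Nat.add_le_add_right (Finset.card_union_le _ _) _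

variable [Fintype V]

lemma sum_rows (m : ℕ) (hκm : κ ≤ m * κ) :
    ∑ h : Fin m × Fin κ → Fin s × Fin (κ + 1), ∑ i, (M.row h i).card
      = m * ((s * (κ + 1)) ^ (m * κ - κ) * ∑ b : Fin κ → Fin s × Fin (κ + 1), (M.Nb b).card) := by
  rw [Finset.sum_comm]
  have : ∀ i : Fin m, ∑ h : Fin m × Fin κ → Fin s × Fin (κ + 1), (M.row h i).card
      = (s * (κ + 1)) ^ (m * κ - κ) * ∑ b : Fin κ → Fin s × Fin (κ + 1), (M.Nb b).card := by
    intro i
    have h1 := sum_comp_injective (X := Fin s × Fin (κ + 1)) (β := Fin m × Fin κ)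
      (fun p : Fin κ => (i, p)) (fun p p' hpp => (Prod.mk.injEq _ _ _ _ ▸ hpp).2)
      (fun b => (M.Nb b).card)
    simp only [Fintype.card_prod, Fintype.card_fin] at h1
    exact h1
  rw [Finset.sum_congr rfl (fun i _ => this i)]
  simp

/-- the arithmetic relation obtained from a family that is too large -/
lemma large_family (hT : Tight κ s F) (hκ : 1 ≤ κ) (hs : κ - 1 ≤ s)
    (hlarge : (s * (κ + 1) + κ).choose (κ + 1) < F.card) :
    κ.factorial * M.miss.card + κ * (s * (κ + 1)) ^ κ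
      ≤ (∑ b : Fin κ → Fin s × Fin (κ + 1), (M.Nb b).card)
        + (κ ^ 3 + κ.factorial * ((κ + 1) * (κ - 1)) ^ (κ + 1)) * (s * (κ + 1)) ^ (κ - 1) := by
  classical
  set N := s * (κ + 1) with hN
  have h0 := card_F_le F M.U
  have h1 := M.card_F0_add_miss hT.1
  have h2 := M.card_F1_le hT.1
  have h3 := M.card_F2_le hT hs hκ
  have h4 := choose_add_ge N κ κ
  set F0 := (F.filter (fun f => f ⊆ M.U)).card
  set F1 := (F.filter (fun f => (f \ M.U).card = 1)).card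
  set F2 := (F.filter (fun f => 2 ≤ (f \ M.U).card)).card
  set Pc := ∑ b : Fin κ → Fin s × Fin (κ + 1), (M.Nb b).card
  rw [← hN] at h1
  have h5 : M.miss.card + κ * N.choose κ ≤ F1 + F2 := by omega
  have h6 : s ^ (κ - 1) ≤ N ^ (κ - 1) := Nat.pow_le_pow_left (by
    rw [hN]; exact Nat.le_mul_of_pos_right s (Nat.succ_pos κ)) _
  have h7 : F2 ≤ ((κ + 1) * (κ - 1)) ^ (κ + 1) * N ^ (κ - 1) := by
    refine le_trans h3 ?_
    rw [mul_comm]
    exact Nat.mul_le_mul_left _ h6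
  have h8 : κ.factorial * N.choose κ = N.descFactorial κ :=
    (Nat.descFactorial_eq_factorial_mul_choose N κ).symm
  have h9 : N ^ κ ≤ N.descFactorial κ + κ ^ 2 * N ^ (κ - 1) := by
    obtain ⟨κ', rfl⟩ : ∃ κ', κ = κ' + 1 := ⟨κ - 1, by omega⟩
    simpa using pow_le_descFactorial N κ'
  have h10 := Nat.mul_le_mul_left κ.factorial h5
  have h11 := Nat.mul_le_mul_left κ.factorial h7
  have h12 := Nat.mul_le_mul_left κ h9
  have e1 : κ.factorial * (M.miss.card + κ * N.choose κ)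
      = κ.factorial * M.miss.card + κ * N.descFactorial κ := by
    rw [← h8]; ring
  have e2 : κ * (N.descFactorial κ + κ ^ 2 * N ^ (κ - 1))
      = κ * N.descFactorial κ + κ ^ 3 * N ^ (κ - 1) := by ring
  have e3 : κ.factorial * (F1 + F2) = κ.factorial * F1 + κ.factorial * F2 := by ring
  have e4 : (κ ^ 3 + κ.factorial * ((κ + 1) * (κ - 1)) ^ (κ + 1)) * N ^ (κ - 1)
      = κ ^ 3 * N ^ (κ - 1) + κ.factorial * (((κ + 1) * (κ - 1)) ^ (κ + 1) * N ^ (κ - 1)) := by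
    ring
  rw [e1, e3] at h10
  rw [e2] at h12
  rw [e4]
  omega

end IMatch

/-- Pure arithmetic: phase 1. -/
lemma arith_phase1 {N κ A D P c1 c3 q m fk fk1 E0 Bd : ℕ}
    (hA : 0 < A) (hm : 0 < m) (hfk : 1 ≤ fk)
    (h7 : fk * D + κ * N ^ κ ≤ P + c3 * N ^ (κ - 1)) (hκ : 1 ≤ κ)
    (hsum : m * (N * A * P) ≤ κ * m * (N ^ (κ + 1) * A) + m * c1 * E0)
    (hE0 : E0 ≤ q ^ 2 * (κ + 1) * (N ^ κ * A) + q ^ (κ + 1) * (κ + 1) ^ (κ + 1) * Bd * A)
    (hBd : Bd ≤ fk1 * D)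
    (hN : 2 * (c1 * (q ^ (κ + 1) * (κ + 1) ^ (κ + 1) * fk1)) ≤ N) :
    D * N ≤ 2 * (c1 * q ^ 2 * (κ + 1) + c3) * N ^ κ := by
  have e0 : N ^ κ = N ^ (κ - 1) * N := by
    rw [← pow_succ]; congr 1; omega
  -- cancel m
  have h1 : N * A * P ≤ κ * (N ^ (κ + 1) * A) + c1 * E0 := by
    apply Nat.le_of_mul_le_mul_left _ hm
    calc m * (N * A * P) ≤ κ * m * (N ^ (κ + 1) * A) + m * c1 * E0 := hsum
      _ = m * (κ * (N ^ (κ + 1) * A) + c1 * E0) := by ring
  have h2 : E0 ≤ q ^ 2 * (κ + 1) * (N ^ κ * A)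
      + (q ^ (κ + 1) * (κ + 1) ^ (κ + 1) * fk1) * D * A := by
    refine le_trans hE0 (Nat.add_le_add_left ?_ _)
    calc q ^ (κ + 1) * (κ + 1) ^ (κ + 1) * Bd * A
        ≤ q ^ (κ + 1) * (κ + 1) ^ (κ + 1) * (fk1 * D) * A :=
          Nat.mul_le_mul_right _ (Nat.mul_le_mul_left _ hBd)
      _ = _ := by ring
  have h3 := Nat.mul_le_mul_left (N * A) h7
  have h4 := Nat.mul_le_mul_left c1 h2
  have e1 : N * A * (fk * D + κ * N ^ κ) = A * (fk * D * N) + κ * (N ^ (κ + 1) * A) := by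
    rw [pow_succ]; ring
  have e2 : N * A * (P + c3 * N ^ (κ - 1)) = N * A * P + A * (c3 * N ^ κ) := by
    rw [e0]; ring
  rw [e1, e2] at h3
  have h5 : A * (fk * D * N) ≤ A * ((c1 * q ^ 2 * (κ + 1) + c3) * N ^ κ
      + c1 * (q ^ (κ + 1) * (κ + 1) ^ (κ + 1) * fk1) * D) := by
    have e3 : A * ((c1 * q ^ 2 * (κ + 1) + c3) * N ^ κ
      + c1 * (q ^ (κ + 1) * (κ + 1) ^ (κ + 1) * fk1) * D)
      = c1 * (q ^ 2 * (κ + 1) * (N ^ κ * A)
      + (q ^ (κ + 1) * (κ + 1) ^ (κ + 1) * fk1) * D * A) + A * (c3 * N ^ κ) := by ring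
    rw [e3]
    omega
  have h6 := Nat.le_of_mul_le_mul_left h5 hA
  have h8 : 1 * (D * N) ≤ fk * (D * N) := Nat.mul_le_mul_right _ hfk
  have h9 := Nat.mul_le_mul_left D hN
  nlinarith

/-- Pure arithmetic: phase 2. -/
lemma arith_phase2 {N κ A D P c1 c3 c4 q m fk fk1 E0 E1 Bd J : ℕ}
    (hA : 0 < A) (hN0 : 0 < N) (hκ : 1 ≤ κ)
    (h7 : fk * D + κ * N ^ κ ≤ P + c3 * N ^ (κ - 1))
    (hsum : m * (N * A * P) + N ^ (κ + 1) * A ≤ κ * m * (N ^ (κ + 1) * A) + m * c1 * (E0 + E1))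
    (hE0 : E0 ≤ q ^ 2 * (κ + 1) * (N ^ κ * A) + q ^ (κ + 1) * (κ + 1) ^ (κ + 1) * Bd * A)
    (hE1 : E1 ≤ q * (κ + 1) * J * (N ^ κ * A) + q ^ κ * (κ + 1) ^ κ * Bd * (N * A))
    (hBd : Bd ≤ fk1 * D)
    (hD : D * N ≤ 2 * c4 * N ^ κ) :
    N ≤ m * c1 * (q ^ 2 * (κ + 1) + q ^ (κ + 1) * (κ + 1) ^ (κ + 1) * fk1 * (2 * c4)
      + q * (κ + 1) * J + q ^ κ * (κ + 1) ^ κ * fk1 * (2 * c4)) + m * c3 := by
  have e0 : N ^ κ = N ^ (κ - 1) * N := by
    rw [← pow_succ]; congr 1; omega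
  have hBN : Bd * N ≤ fk1 * (2 * c4) * N ^ κ := by
    calc Bd * N ≤ fk1 * D * N := Nat.mul_le_mul_right _ hBd
      _ = fk1 * (D * N) := by ring
      _ ≤ fk1 * (2 * c4 * N ^ κ) := Nat.mul_le_mul_left _ hD
      _ = _ := by ring
  have hB1 : Bd ≤ fk1 * (2 * c4) * N ^ κ :=
    le_trans (Nat.le_mul_of_pos_right _ hN0) hBN
  have h1 : E0 ≤ (q ^ 2 * (κ + 1) + q ^ (κ + 1) * (κ + 1) ^ (κ + 1) * fk1 * (2 * c4))
      * (N ^ κ * A) := by
    refine le_trans hE0 ?_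
    calc q ^ 2 * (κ + 1) * (N ^ κ * A) + q ^ (κ + 1) * (κ + 1) ^ (κ + 1) * Bd * A
        ≤ q ^ 2 * (κ + 1) * (N ^ κ * A)
          + q ^ (κ + 1) * (κ + 1) ^ (κ + 1) * (fk1 * (2 * c4) * N ^ κ) * A :=
          Nat.add_le_add_left (Nat.mul_le_mul_right _ (Nat.mul_le_mul_left _ hB1)) _
      _ = _ := by ring
  have h2 : E1 ≤ (q * (κ + 1) * J + q ^ κ * (κ + 1) ^ κ * fk1 * (2 * c4)) * (N ^ κ * A) := by
    refine le_trans hE1 ?_
    calc q * (κ + 1) * J * (N ^ κ * A) + q ^ κ * (κ + 1) ^ κ * Bd * (N * A)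
        = q * (κ + 1) * J * (N ^ κ * A) + q ^ κ * (κ + 1) ^ κ * (Bd * N) * A := by ring
      _ ≤ q * (κ + 1) * J * (N ^ κ * A) + q ^ κ * (κ + 1) ^ κ * (fk1 * (2 * c4) * N ^ κ) * A :=
          Nat.add_le_add_left (Nat.mul_le_mul_right _ (Nat.mul_le_mul_left _ hBN)) _
      _ = _ := by ring
  have h3 := Nat.mul_le_mul_left (m * (N * A)) h7
  have e1 : m * (N * A) * (fk * D + κ * N ^ κ)
      = m * (N * A) * (fk * D) + κ * m * (N ^ (κ + 1) * A) := by
    rw [pow_succ]; ring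
  have e2 : m * (N * A) * (P + c3 * N ^ (κ - 1)) = m * (N * A * P) + m * c3 * (N ^ κ * A) := by
    rw [e0]; ring
  rw [e1, e2] at h3
  have h4 : N ^ (κ + 1) * A ≤ m * c1 * (E0 + E1) + m * c3 * (N ^ κ * A) := by omega
  have h5 : N * (N ^ κ * A) ≤ (m * c1 * (q ^ 2 * (κ + 1)
      + q ^ (κ + 1) * (κ + 1) ^ (κ + 1) * fk1 * (2 * c4)
      + q * (κ + 1) * J + q ^ κ * (κ + 1) ^ κ * fk1 * (2 * c4)) + m * c3) * (N ^ κ * A) := by
    calc N * (N ^ κ * A) = N ^ (κ + 1) * A := by rw [pow_succ]; ring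
      _ ≤ m * c1 * (E0 + E1) + m * c3 * (N ^ κ * A) := h4
      _ ≤ m * c1 * ((q ^ 2 * (κ + 1) + q ^ (κ + 1) * (κ + 1) ^ (κ + 1) * fk1 * (2 * c4))
      * (N ^ κ * A) + (q * (κ + 1) * J + q ^ κ * (κ + 1) ^ κ * fk1 * (2 * c4)) * (N ^ κ * A))
          + m * c3 * (N ^ κ * A) :=
          Nat.add_le_add_right (Nat.mul_le_mul_left _ (Nat.add_le_add h1 h2)) _
      _ = _ := by ring
  have hpos : 0 < N ^ κ * A := Nat.mul_pos (pow_pos hN0 κ) hA
  exact Nat.le_of_mul_le_mul_right h5 hpos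

end Pool.Agent.H73.Cov
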