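import Mathlib
import Pool.Agent.H73.CovD

set_option autoImplicit false

namespace Pool.Agent.H73.Cov

open Finset

theorem tight_bound (κ : ℕ) (hκ : 1 ≤ κ) : ∃ s₀ : ℕ, ∀ s, s₀ < s →
    ∀ (V : Type) [Fintype V] [DecidableEq V] (F : Finset (Finset V)), Tight κ s F →
      F.card ≤ (s * (κ + 1) + κ).choose (κ + 1) := by
  classical
  obtain ⟨c1, hc1⟩ : ∃ c1, c1 = (κ + 1) * κ := ⟨_, rfl⟩
  obtain ⟨m, hm⟩ : ∃ m, m = κ * ((κ + 1) * κ) + (κ + 1) * κ + 1 := ⟨_, rfl⟩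
  obtain ⟨q, hq⟩ : ∃ q, q = m * κ := ⟨_, rfl⟩
  obtain ⟨c3, hc3⟩ : ∃ c3, c3 = κ ^ 3 + κ.factorial * ((κ + 1) * (κ - 1)) ^ (κ + 1) := ⟨_, rfl⟩
  obtain ⟨fk1, hfk1⟩ : ∃ f, f = (κ + 1).factorial := ⟨_, rfl⟩
  obtain ⟨c4, hc4⟩ : ∃ c4, c4 = c1 * q ^ 2 * (κ + 1) + c3 := ⟨_, rfl⟩
  obtain ⟨J, hJ⟩ : ∃ J, J = (κ + 1) * (κ + 1) := ⟨_, rfl⟩
  obtain ⟨b1, hb1⟩ : ∃ b, b = 2 * (c1 * (q ^ (κ + 1) * (κ + 1) ^ (κ + 1) * fk1)) := ⟨_, rfl⟩
  obtain ⟨b2, hb2⟩ : ∃ b, b = m * c1 * (q ^ 2 * (κ + 1)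
      + q ^ (κ + 1) * (κ + 1) ^ (κ + 1) * fk1 * (2 * c4)
      + q * (κ + 1) * J + q ^ κ * (κ + 1) ^ κ * fk1 * (2 * c4)) + m * c3 := ⟨_, rfl⟩
  refine ⟨κ + b1 + b2, ?_⟩
  intro s hs V _ _ F hT
  by_contra hlarge
  push Not at hlarge
  obtain ⟨M⟩ := hT.exists_imatch
  obtain ⟨N, hN⟩ : ∃ N, N = s * (κ + 1) := ⟨_, rfl⟩
  have hsN : s ≤ N := by rw [hN]; exact Nat.le_mul_of_pos_right s (Nat.succ_pos κ)
  have hN0 : 0 < N := by omega
  have hm0 : 0 < m := by omega
  have hmq : m ≤ q := by rw [hq]; exact Nat.le_mul_of_pos_right m hκ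
  have hκm : κ + 1 ≤ m := by
    rw [hm]
    nlinarith
  have hκq : κ + 1 ≤ q := le_trans hκm hmq
  obtain ⟨A, hA⟩ : ∃ A, A = N ^ (q - (κ + 1)) := ⟨_, rfl⟩
  have hA0 : 0 < A := by rw [hA]; exact pow_pos hN0 _
  have pA1 : N ^ (q - κ) = N * A := by
    rw [hA, ← pow_succ']; congr 1; omega
  have pA2 : N ^ (q - 1) = N ^ κ * A := by
    rw [hA, ← pow_add]; congr 1; omega
  have pA3 : N ^ q = N ^ (κ + 1) * A := by
    rw [hA, ← pow_add]; congr 1; omega
  have hcardW : Fintype.card (Fin m × Fin κ) = q := by simp [hq]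
  have hcardH : Fintype.card (Fin m × Fin κ → Fin s × Fin (κ + 1)) = N ^ (κ + 1) * A := by
    rw [← pA3, hN, hq]
    simp
  obtain ⟨P, hP⟩ : ∃ P, P = ∑ b : Fin κ → Fin s × Fin (κ + 1), (M.Nb b).card := ⟨_, rfl⟩
  have hsumrows : ∑ h : Fin m × Fin κ → Fin s × Fin (κ + 1), ∑ i, (M.row h i).card
      = m * (N * A * P) := by
    rw [M.sum_rows m (by rw [← hq]; omega), ← hP, ← hN, ← hq, pA1]
  have h7 := M.large_family hT hκ (by omega) hlarge
  rw [← hP, ← hN, ← hc3] at h7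
  have hE0 := M.card_E0_le (W := Fin m × Fin κ) hcardW (by omega) (by omega)
  rw [← hN, pA2, ← hA] at hE0
  have hBd : M.Bad.card ≤ fk1 * M.miss.card := by rw [hfk1]; exact M.card_Bad_le
  have hrowle : ∀ h : Fin m × Fin κ → Fin s × Fin (κ + 1),
      ∑ i, (M.row h i).card ≤ m * c1 := by
    intro h
    calc ∑ i, (M.row h i).card ≤ ∑ i : Fin m, c1 :=
          Finset.sum_le_sum (fun i _ => by rw [hc1]; exact M.Nb_card_le hT _)
      _ = m * c1 := by simp
  have hms : κ * ((κ + 1) * κ) + 1 ≤ m := by omega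
  have hstruct : ∀ h : Fin m × Fin κ → Fin s × Fin (κ + 1), h ∉ M.E0 (Fin m × Fin κ) →
      ∑ i, (M.row h i).card ≤ κ * m := by
    intro h hh
    rcases M.structure_lemma hT hκ hms hh with h1 | ⟨Z₀, hZc, hZ⟩
    · omega
    · rw [Finset.sum_congr rfl (fun i _ => by rw [hZ i, hZc])]
      simp [mul_comm]
  -- phase 1
  have hsum1 : m * (N * A * P) ≤ κ * m * (N ^ (κ + 1) * A)
      + m * c1 * (M.E0 (Fin m × Fin κ)).card := by
    rw [← hsumrows, ← hcardH]
    exact sum_le_of_exceptional _ _ _ _ hstruct hrowle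
  have hD := arith_phase1 (q := q) hA0 hm0 (Nat.factorial_pos κ) h7 hκ hsum1 hE0 hBd
    (by rw [← hb1]; omega)
  rw [← hc4] at hD
  -- all vertices
  set Y := F.biUnion id \ M.U with hY
  by_cases hYc : Y.card ≤ κ
  · -- few outside vertices
    have hsub : F ⊆ powersetCard (κ + 1) (M.U ∪ Y) := by
      intro f hf
      rw [Finset.mem_powersetCard]
      refine ⟨?_, hT.1 f hf⟩
      intro x hx
      rw [Finset.mem_union]
      by_cases hxU : x ∈ M.U
      · exact Or.inl hxU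
      · right
        rw [hY, Finset.mem_sdiff, Finset.mem_biUnion]
        exact ⟨⟨f, hf, hx⟩, hxU⟩
    have h1 := Finset.card_le_card hsub
    rw [Finset.card_powersetCard] at h1
    have h2 : (M.U ∪ Y).card ≤ N + κ := by
      refine le_trans (Finset.card_union_le _ _) ?_
      rw [M.U_card, ← hN]
      omega
    have h3 := Nat.choose_le_choose (κ + 1) h2
    rw [← hN] at hlarge
    omega
  · -- phase 2
    push Not at hYc
    obtain ⟨Y', hY'sub, hY'c⟩ := Finset.exists_subset_card_eq (show κ + 1 ≤ Y.card from hYc)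
    let e : Fin (κ + 1) ≃ Y' := (Finset.equivFinOfCardEq hY'c).symm
    let y : Fin (κ + 1) → V := fun c => (e c : V)
    have hy : Function.Injective y := fun c c' hcc => e.injective (Subtype.ext hcc)
    have hyY : ∀ c, y c ∈ Y := fun c => hY'sub (e c).2
    have hyU : ∀ c, y c ∉ M.U := fun c => (Finset.mem_sdiff.1 (hyY c)).2
    have hyF : ∀ c, ∃ f ∈ F, y c ∈ f := by
      intro c
      have := (Finset.mem_sdiff.1 (hyY c)).1
      rw [Finset.mem_biUnion] at this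
      exact this
    choose f hf hyf using hyF
    set Js : Finset (Fin s) := (univ : Finset (Fin (κ + 1))).biUnion (fun c => M.supp (f c)) with hJs
    have hJsc : Js.card ≤ J := by
      calc Js.card ≤ ∑ c : Fin (κ + 1), (M.supp (f c)).card := Finset.card_biUnion_le
        _ ≤ ∑ c : Fin (κ + 1), (κ + 1) := by
            refine Finset.sum_le_sum (fun c _ => ?_)
            refine le_trans (M.supp_card_le (f c)) ?_
            rw [← hT.1 (f c) (hf c)]
            exact Finset.card_le_card Finset.inter_subset_left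
        _ = J := by simp [hJ]
    have hE1 := M.card_E1_le (W := Fin m × Fin κ) hcardW Js
    rw [← hN, pA2, pA1] at hE1
    have hE1' : (M.E1 (Fin m × Fin κ) Js).card ≤ q * (κ + 1) * J * (N ^ κ * A)
        + q ^ κ * (κ + 1) ^ κ * M.Bad.card * (N * A) := by
      refine le_trans hE1 (Nat.add_le_add_right ?_ _)
      exact Nat.mul_le_mul_right _ (Nat.mul_le_mul_left _ hJsc)
    have hκm1 : 1 ≤ κ * m := Nat.mul_pos hκ hm0
    have hsum2' : m * (N * A * P) ≤ (κ * m - 1) * (N ^ (κ + 1) * A)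
        + m * c1 * (M.E0 (Fin m × Fin κ) ∪ M.E1 (Fin m × Fin κ) Js).card := by
      rw [← hsumrows, ← hcardH]
      refine sum_le_of_exceptional _ _ _ _ ?_ hrowle
      intro h hh
      rw [Finset.mem_union] at hh
      push Not at hh
      rcases M.structure_lemma hT hκ hms hh.1 with h1 | ⟨Z₀, hZc, hZ⟩
      · omega
      · exfalso
        exact M.final_lemma hT (by omega) hm0 hh.1 Js hh.2 y hy hyU f hf hyf
          (fun c => Finset.subset_biUnion_of_mem (fun c => M.supp (f c)) (mem_univ c)) Z₀ hZc hZ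
    have hsum2 : m * (N * A * P) + N ^ (κ + 1) * A ≤ κ * m * (N ^ (κ + 1) * A)
        + m * c1 * ((M.E0 (Fin m × Fin κ)).card + (M.E1 (Fin m × Fin κ) Js).card) := by
      have h1 := Nat.mul_le_mul_left (m * c1)
        (Finset.card_union_le (M.E0 (Fin m × Fin κ)) (M.E1 (Fin m × Fin κ) Js))
      have h2 : (κ * m - 1) * (N ^ (κ + 1) * A) + N ^ (κ + 1) * A = κ * m * (N ^ (κ + 1) * A) := by
        obtain ⟨t, ht⟩ : ∃ t, κ * m = t + 1 := ⟨κ * m - 1, by omega⟩
        rw [ht]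
        simp only [Nat.add_sub_cancel]
        ring
      omega
    have hfin := arith_phase2 (q := q) hA0 hN0 hκ h7 hsum2 hE0 hE1' hBd hD
    rw [← hb2] at hfin
    omega

end Pool.Agent.H73.Cov
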